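import Mathlib

/-!
# Project AR (helper458): all 2-Selmer ranks occur for a positive proportion of all elliptic curves over `ℚ`.
# Part 1: combinatorics and linear algebra over the field with two elements

Target (MP_8cb858_nt): for every `r` a positive proportion of all `E/ℚ`, ordered by height, has
`dim Sel₂(E/ℚ) = r`. This file: statements `S_..` of the combinatorial parts with paper proofs. Only Mathlib.
-/

set_option autoImplicit false
set_option linter.all false

open scoped Classical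

namespace Pool.Agent.H458.AR

/-- Part RMS (Ramsey). A set `C` of at least `t ^ r` vertices of a graph contains `r + 1` pairwise
non-adjacent vertices or `t` pairwise adjacent ones.

Proof. Induction on `r`; `r = 0` is clear (one vertex). For `r + 1`: Suppose that there is a set `C' ⊆ C` of
at least `t ^ r` vertices, all different from and not adjacent to some `v ∈ C`: apply the induction to `C'`; an
independent set of size `r + 1` in `C'` and `v` give one of size `r + 2`. Otherwise, choose greedily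
`v₁, v₂, …, v_t`: `C₀ = C`, `v_(i+1) ∈ C_i`, `C_(i+1) = {x ∈ C_i | x adjacent to v_(i+1)}`; at each step at most
`1 + (t ^ r - 1)` vertices are lost, so `|C_i| ≥ t ^ (r+1) - i t ^ r > 0` for `i < t`. -/
def S_RMS : Prop := ∀ (V : Type) [Fintype V] (G : SimpleGraph V) (r t : ℕ) (C : Finset V), 1 ≤ t →
  t ^ r ≤ C.card →
  (∃ I ⊆ C, I.card = r + 1 ∧ ∀ x ∈ I, ∀ y ∈ I, ¬ G.Adj x y) ∨
  ∃ K ⊆ C, K.card = t ∧ ∀ x ∈ K, ∀ y ∈ K, x ≠ y → G.Adj x y

/-- Part SEP. Few columns separate all the rows `i ∈ K` if any two of them differ at a proportion of at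
least `1 / (2 m)` of all the columns.

Proof. Count the functions `c : Fin y → V`. For a pair `i ≠ j` in `K` the number of `c` such that the rows `i`
and `j` agree at all `c k` is `(|V| - d) ^ y` with `2 m d ≥ |V|`, so that
`(2 m) ^ y * (|V| - d) ^ y ≤ (2 m - 1) ^ y |V| ^ y`. The number of pairs is at most `|K| ^ 2`, so that
`(2 m) ^ y` times the number of the `c` which do not separate is at most
`|K| ^ 2 (2 m - 1) ^ y |V| ^ y < (2 m) ^ y |V| ^ y`; so some `c` separates, `Y` its image. (If `V` is empty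
then `K` is.) -/
def S_SEP : Prop := ∀ (V : Type) [Fintype V] (m y : ℕ) (K : Finset V) (A : V → V → Prop),
  K.card ^ 2 * (2 * m - 1) ^ y < (2 * m) ^ y →
  (∀ i ∈ K, ∀ j ∈ K, i ≠ j →
    Fintype.card V ≤ 2 * m * (Finset.univ.filter fun l => ¬ (A i l ↔ A j l)).card) →
  ∃ Y : Finset V, Y.card ≤ y ∧ ∀ i ∈ K, ∀ j ∈ K, i ≠ j → ∃ l ∈ Y, ¬ (A i l ↔ A j l)

/-- Part SHT (Sauer-Shelah; Mathlib `Finset.card_le_card_shatterer` or
`Finset.card_shatterer_le_sum_vcDim`). If the rows `i ∈ K` are different on `Y` and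
`(|Y| + 1) ^ d < |K|` then some `D ⊆ Y` with `d` elements is shattered by the rows.

Proof. `𝒜` = the family of the traces `{l ∈ Y | A i l}`, `|𝒜| = |K|`. The family shatters at least `|𝒜|`
subsets of `Y` (`Finset.card_le_card_shatterer`). The number of subsets of `Y` with fewer than `d` elements is
at most `(|Y| + 1) ^ d`, so it shatters a set with at least `d` elements, and then a subset with exactly `d`
elements. -/
def S_SHT : Prop := ∀ (V : Type) [Fintype V] (d : ℕ) (K Y : Finset V) (A : V → V → Prop),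
  (∀ i ∈ K, ∀ j ∈ K, i ≠ j → ∃ l ∈ Y, ¬ (A i l ↔ A j l)) → (Y.card + 1) ^ d < K.card →
  ∃ D ⊆ Y, D.card = d ∧ ∀ P ⊆ D, ∃ i ∈ K, ∀ l ∈ D, (A i l ↔ l ∈ P)

section mat

variable {V : Type} [Fintype V]

/-- The kernel of the principal submatrix of `A` given by `Y`. -/
def Ker (A : V → V → ZMod 2) (Y : Finset V) : Set (V → ZMod 2) :=
  {v | (∀ i ∉ Y, v i = 0) ∧ ∀ i ∈ Y, ∑ j, A i j * v j = 0}

end mat

/-- Part GR. `A` is the adjacency matrix of a graph (over `ZMod 2`: symmetric with zero diagonal) with `m ^ e`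
vertices, `m` large, in which the rows of any two ADJACENT vertices differ at more than `m ^ (e - 1)` places.
Then some principal submatrix has corank at least `r`.

Proof. We may assume `r ≥ 1`. Put `t = r + 2`, `d = t ^ r`, `e = r * (2 * d + 1)`. If there is an independent set
`Y` of size `r`, the submatrix is zero and `Ker A Y` has `2 ^ r` elements. Otherwise, by RMS with `r - 1` for
all `m ^ e` vertices (`t := m ^ (2 d + 1)`, `t ^ (r - 1) ≤ m ^ e`) there is a clique `K` with `m ^ (2 d + 1)`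
elements. By SEP with `y = m ^ 2 - 1` and `A i l := (A i l = 1)`: `|V| = m ^ e ≤ 2 m · m ^ (e - 1)` and
`(m ^ (2 d + 1)) ^ 2 (2 m - 1) ^ y < (2 m) ^ y` for large `m` since `(1 - 1 / (2 m)) ^ (m ^ 2 - 1)` is about
`exp (- m / 2)`. So there is `Y` with `|Y| + 1 ≤ m ^ 2` which separates `K`. By SHT, since
`(m ^ 2) ^ d < m ^ (2 d + 1)` for `m ≥ 2`, there is `D ⊆ Y` with `d` elements such that every `P ⊆ D` is
`{l ∈ D | A i l = 1}` for an `i ∈ K`. By RMS with `r - 1` for `D` (`d = t ^ r ≥ t ^ (r - 1)`) and since there is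
no independent set of size `r`, there is a clique `D' ⊆ D` with `r + 2` elements. For `y ∈ D'` let `x_y ∈ K` be
with `{l ∈ D | A x_y l = 1} = {y}`. The `x_y` are different for different `y`. No `x_y` is in `D'`, because an
element of `D'` is adjacent to the `r + 1 ≥ 2` other elements of `D'`. Let `Y = D' ∪ {x_y}`. For every function
`u : D' → ZMod 2` with `∑ u = 0` the vector `v` with `v y = v (x_y) = u y` (and `0` outside `Y`) is in
`Ker A Y`: at `y`: `∑ (y' ≠ y) u y' + u y = ∑ u = 0`; at `x_y`: `∑ (y' ≠ y) u y' + u y = 0` since `K` is a clique.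
There are `2 ^ (r + 1)` such `u`. -/
def S_GR : Prop := ∀ r : ℕ, ∃ e : ℕ, 1 ≤ e ∧ ∃ m₀ : ℕ, ∀ m ≥ m₀,
  ∀ (V : Type) [Fintype V] (A : V → V → ZMod 2), Fintype.card V = m ^ e →
  (∀ i, A i i = 0) → (∀ i j, A i j = A j i) →
  (∀ i j, A i j = 1 → m ^ (e - 1) < (Finset.univ.filter fun l => A i l ≠ A j l).card) →
  ∃ Y : Finset V, 2 ^ r ≤ Nat.card (Ker A Y)

/-- Part STP. The coranks of the principal submatrices take all the values between `0` and the maximum.

Proof. `Ker A Y` is a subspace, `f Y` its dimension, `f ∅ = 0`. For `i ∉ Y`: the subspace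
`U = {v ∈ Ker A Y | ∑ j, A i j v j = 0}` is contained in `Ker A (insert i Y)` (`v i = 0`), has codimension at most
one in `Ker A Y`, and is `{v ∈ Ker A (insert i Y) | v i = 0}` (for `v` with support in `insert i Y` and `v i = 0`
both conditions are the same), which has codimension at most one in `Ker A (insert i Y)`. So
`|f (insert i Y) - f Y| ≤ 1`. Discrete intermediate value theorem along `∅ ⊂ … ⊂ Y` (induction on `Y`: claim
for all `j ≤ f Y`). -/
def S_STP : Prop := ∀ (V : Type) [Fintype V] (A : V → V → ZMod 2), (∀ i, A i i = 0) →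
  (∀ i j, A i j = A j i) → ∀ (r : ℕ) (Y : Finset V), 2 ^ r ≤ Nat.card (Ker A Y) →
  ∀ j ≤ r, ∃ Y' : Finset V, Nat.card (Ker A Y') = 2 ^ j

/-- The elements of `Λ` with second coordinate zero at `J` and first coordinate zero outside `J`. -/
def LJ {ι : Type} (Λ : AddSubgroup (ι → ZMod 2 × ZMod 2)) (J : Set ι) : Set (ι → ZMod 2 × ZMod 2) :=
  {l | l ∈ Λ ∧ (∀ i ∈ J, (l i).2 = 0) ∧ ∀ i ∉ J, (l i).1 = 0}

/-- Part CMB. `Λ` is a totally singular subgroup of order at least `2 ^ n` of the quadratic space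
`(F₂ × F₂) ^ n`, `n = m ^ e`, `m` large, such that all its elements with a component `(1, 1)` have weight more
than `m ^ (e - 1)`. Then all dimensions `j ≤ r` occur among the subgroups `LJ Λ J`.

Proof (from GR, STP and `Pool.Agent.N498.PP.lin : Pool.Agent.N874.PP.S_LIN`, library module
`Pool.Graph.R_pool_sql_team_seeded_63374d34.N498.PP.Lin`). By LIN there is `J₀` with `LJ Λ J₀ = {0}`. For
`l ∈ Λ` let `x l i = (l i).1` for `i ∉ J₀`, `(l i).2` for `i ∈ J₀`, and `y l i` the other coordinate. If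
`x l = 0` then `l ∈ LJ Λ J₀`, so `l = 0`. So `x : Λ → (ι → ZMod 2)` is injective, bijective because
`2 ^ n ≤ |Λ|`. Let `l v` be the element with `x (l v) = v`, and `A i j = y (l (e_j)) i` (`e_j = Pi.single j 1`), so
that `y (l v) i = ∑ j, A i j v j`. Total singularity of `l (e_i)` and of `l (e_i) + l (e_j)`: `A i i = 0`,
`A i j = A j i` (the form is `∑ x y`, symmetric in the swap). If `A i j = 1` then the element
`l (e_i) + l (e_j)` has the component `(1, 1)` at `i`, and its weight is the number of `k` with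
`A k i ≠ A k j` or `k ∈ {i, j}`; but `A i i = 0 ≠ A i j`, `A j j = 0 ≠ A j i`, so this is the number of `k` with
`A i k ≠ A j k`. Hence GR applies: `Y` with `2 ^ r ≤ |Ker A Y|`, and by STP, for `j ≤ r`, `Y'` with
`|Ker A Y'| = 2 ^ j`. Let `J` be the symmetric difference of `J₀` and `Y'`. Then `v ↦ l v` is a bijection
`Ker A Y' → LJ Λ J`: for `i ∉ Y'` the condition at `i` is `x = 0`, for `i ∈ Y'` it is `y = 0`. -/
def S_CMB : Prop := ∀ r : ℕ, ∃ e : ℕ, 1 ≤ e ∧ ∃ m₀ : ℕ, ∀ m ≥ m₀,
  ∀ (ι : Type) [Fintype ι] (Λ : AddSubgroup (ι → ZMod 2 × ZMod 2)), Fintype.card ι = m ^ e →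
  (∀ l ∈ Λ, ∑ i, (l i).1 * (l i).2 = 0) → 2 ^ Fintype.card ι ≤ Nat.card Λ →
  (∀ l ∈ Λ, (∃ i, (l i).1 = 1 ∧ (l i).2 = 1) →
    m ^ (e - 1) < (Finset.univ.filter fun i => l i ≠ 0).card) →
  ∀ j ≤ r, ∃ J : Set ι, Nat.card (LJ Λ J) = 2 ^ j

end Pool.Agent.H458.AR
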