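import Pool.Graph.R_pool_sql_team_seeded_63374d34.N922.PQ.Def

/-!
# Project AR (helper458): all 2-Selmer ranks occur for a positive proportion of all elliptic curves over `ℚ`.
# Part 2: counting pairs of ternary forms

`IsPr Q`: `Q` is a positive prime. `GoodS S s`: all `Q ∈ S` are primes `1` modulo `8` and `-s Q` is not a square
modulo `Q`. (Both from `Pool.Agent.N922.PQ`.)
-/

set_option autoImplicit false
set_option linter.all false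

open Matrix Polynomial
open scoped Classical

namespace Pool.Agent.H458.AR

open Pool.Agent.N922.PQ (IsPr GoodS)

/-- `det (X G - B) = det G (X ^ 3 + a X + b)`: the characteristic polynomial of `G⁻¹ B` is
`X ^ 3 + a X + b`. -/
def ChR {R : Type} [CommRing R] (G B : Matrix (Fin 3) (Fin 3) R) (a b : R) : Prop :=
  ((X : R[X]) • G.map (C : R →+* R[X]) - B.map (C : R →+* R[X])).det =
    C G.det * (X ^ 3 + C a * X + C b)

/-- Two zeros of both forms modulo `Q`, linearly independent modulo `Q`. -/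
def TTM (Q : ℤ) (G B : Matrix (Fin 3) (Fin 3) ℤ) : Prop :=
  ∃ ξ ξ' : Fin 3 → ℤ, (∃ i j, ¬ Q ∣ ξ i * ξ' j - ξ j * ξ' i) ∧
    Q ∣ ξ ⬝ᵥ G *ᵥ ξ ∧ Q ∣ ξ ⬝ᵥ B *ᵥ ξ ∧ Q ∣ ξ' ⬝ᵥ G *ᵥ ξ' ∧ Q ∣ ξ' ⬝ᵥ B *ᵥ ξ'

/-- Part LQ. Over a finite field of odd order `q`: for a non-degenerate ternary form `G` and `s` with `-s` not a
square, at most `q ^ 3 / 2` symmetric matrices `B` such that `G⁻¹ B` has the characteristic polynomial
`X ^ 3 + s X` and `G`, `B` have two independent common zeros.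

Proof. `G` has at most `q + 1` isotropic lines (a point `p` of the conic; every line through `p` contains at
most one further point of the conic, since there are no totally isotropic planes; at most one isotropic line
if there is only one, and the lines through `p` are `q + 1`, the one in `p^⊥` contains no further point). So at
most `(q + 1) q / 2` unordered pairs `{ℓ, ℓ'}` of isotropic lines. For fixed `ℓ = ⟨ξ⟩`, `ℓ' = ⟨ξ'⟩`:
`g = G(ξ, ξ') ≠ 0`; let `ζ ≠ 0` be orthogonal to both, `k = G(ζ, ζ) ≠ 0`. In the basis `ξ, ζ, ξ'` a form `B` which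
vanishes at `ξ`, `ξ'` is `(0, y, c; y, d, z; c, z, 0)`, and
`det (t G - B) = (t g - c) (2 y z - (t k - d) (t g - c))` must be `- k g ^ 2 t (t ^ 2 + s)`. Since `0` is the only
zero of `t (t ^ 2 + s)`, `c = 0`; then `d = 0` and `2 y z = - k g s ≠ 0`: at most `q - 1` such `B`. In total at
most `(q + 1) q (q - 1) / 2` matrices `B`. -/
def S_LQ : Prop := ∀ (F : Type) [Field F] [Finite F], (2 : F) ≠ 0 → ∀ s : F,
  (∀ z : F, z ^ 2 + s ≠ 0) → ∀ G : Matrix (Fin 3) (Fin 3) F, G.IsSymm → G.det ≠ 0 →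
  2 * Nat.card {B : Matrix (Fin 3) (Fin 3) F // B.IsSymm ∧ ChR G B s 0 ∧
    ∃ ξ ξ' : Fin 3 → F, LinearIndependent F ![ξ, ξ'] ∧ ξ ⬝ᵥ G *ᵥ ξ = 0 ∧ ξ ⬝ᵥ B *ᵥ ξ = 0 ∧
      ξ' ⬝ᵥ G *ᵥ ξ' = 0 ∧ ξ' ⬝ᵥ B *ᵥ ξ' = 0} ≤ Nat.card F ^ 3

/-- The conditions on `B` for a given `G`. -/
structure BOk (G : Matrix (Fin 3) (Fin 3) ℤ) (R : Finset ℤ) (s : ℤ → ℤ) (N : ℤ)
    (B : Matrix (Fin 3) (Fin 3) ℤ) (p : ℤ × ℤ) : Prop where
  symm : B.IsSymm
  bd : ∀ i j, |B i j| ≤ N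
  ch : ChR G B p.1 p.2
  ra : ∀ Q ∈ R, Q ∣ p.1 - s Q
  rb : ∀ Q ∈ R, Q ∣ p.2
  tt : ∀ Q ∈ R, TTM Q G B

/-- Part BXR. The number of the `(a, b)` from a fixed `G` (compare `Pool.Agent.N50.PQ.box`, library module
`Pool.Graph.R_pool_sql_team_seeded_63374d34.N50.PQ.Box`: the same argument for tuples).

Proof. `(a, b)` is determined by `B`, so count the `B`. The coefficient of `X ^ 2` in `ChR` says
`tr (adj(G) B) = 0`, a linear relation for the six entries of `B`, which is not trivial since `det G ≠ 0`; so `B`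
is determined by five of its six entries. Let `P = ∏ Q ∈ R, Q ≤ N`. For every residue class modulo `P` of the
matrix `B` there are at most `(2 N / P + 1) ^ 5 ≤ (3 N / P) ^ 5` matrices. By the Chinese remainder theorem and
LQ (for `ZMod Q`; note that `ChR` modulo `Q` holds with `(s Q, 0)`) the number of residue classes is at most
`∏ Q ∈ R, Q ^ 3 / 2`. -/
def S_BXR : Prop := ∀ (G : Matrix (Fin 3) (Fin 3) ℤ) (R : Finset ℤ) (s : ℤ → ℤ) (N : ℤ), G.IsSymm →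
  G.det ≠ 0 → GoodS R s → (∀ Q ∈ R, ¬ Q ∣ G.det) → ∏ Q ∈ R, Q ≤ N →
  {p : ℤ × ℤ | ∃ B, BOk G R s N B p}.Finite ∧
  2 ^ R.card * (∏ Q ∈ R, Q) ^ 2 * ({p : ℤ × ℤ | ∃ B, BOk G R s N B p}.ncard : ℤ) ≤ 243 * N ^ 5

/-- The pair `(a, b) = p` comes from integral ternary forms `G`, `B` with `D G⁻¹` integral. -/
def ABad (X : ℕ) (R : Finset ℤ) (s : ℤ → ℤ) (D : ℤ) (p : ℤ × ℤ) : Prop :=
  ∃ G G' B : Matrix (Fin 3) (Fin 3) ℤ, G.IsSymm ∧ G * G' = D • (1 : Matrix (Fin 3) (Fin 3) ℤ) ∧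
    (∀ i j, |G i j| ≤ 64 * D ^ 4) ∧ BOk G R s (128 * D ^ 4 * X) B p

/-- Part ABD. The number of these pairs.

Proof. `det G * det G' = D ^ 3`, so that `det G ≠ 0` is prime to the `Q ∈ R` (as `Q ∤ D`). There are at most
`(129 * D ^ 4) ^ 6` symmetric `G` with entries at most `64 D ^ 4`; for each of them BXR with
`N = 128 D ^ 4 X`. So `K = 129 ^ 6 * 243 * 128 ^ 5`. -/
def S_ABD : Prop := ∃ K : ℕ, ∀ (X : ℕ) (R : Finset ℤ) (s : ℤ → ℤ) (D : ℤ), GoodS R s → 1 ≤ D →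
  (∀ Q ∈ R, ¬ Q ∣ D) → ∏ Q ∈ R, Q ≤ (X : ℤ) →
  {p : ℤ × ℤ | ABad X R s D p}.Finite ∧
  2 ^ R.card * (∏ Q ∈ R, Q) ^ 2 * ({p : ℤ × ℤ | ABad X R s D p}.ncard : ℤ) ≤ K * D ^ 44 * X ^ 5

/-- The pairs which come from a ramified class of weight at most `k`. -/
def LowB (X : ℕ) (S : Finset ℤ) (s : ℤ → ℤ) (k : ℕ) (p : ℤ × ℤ) : Prop :=
  ∃ Zr Z : Finset ℤ, Zr ⊆ Z ∧ Z ⊆ S ∧ Z.card ≤ k ∧ ABad X (S \ Z) s (∏ Q ∈ Zr, Q) p

/-- Part LOW. Few pairs come from classes of low weight.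

Proof. Union over `Z` (at most `(|S| + 1) ^ k` sets) and `Zr ⊆ Z` (at most `2 ^ k`). For each of them ABD with
`R = S \ Z`, `D = ∏ Q ∈ Zr, Q ≤ M ^ k` (the primes in `S \ Z` do not divide `D`), and
`2 ^ |S| (∏ Q ∈ S, Q) ^ 2 = 2 ^ |R| (∏ Q ∈ R, Q) ^ 2 * 2 ^ |Z| (∏ Q ∈ Z, Q) ^ 2 ≤ … * 2 ^ k M ^ (2 k)`. In total
`K (|S| + 1) ^ k 4 ^ k M ^ (46 k) X ^ 5`, and `4 ≤ M` if `S` is not empty (`Q % 8 = 1`); if `S` is empty then
`Z` is and the claim is clear. -/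
def S_LOW : Prop := ∃ K : ℕ, ∀ (X : ℕ) (S : Finset ℤ) (s : ℤ → ℤ) (k M : ℕ), GoodS S s →
  (∀ Q ∈ S, Q ≤ (M : ℤ)) → ∏ Q ∈ S, Q ≤ (X : ℤ) →
  {p : ℤ × ℤ | LowB X S s k p}.Finite ∧
  2 ^ S.card * (∏ Q ∈ S, Q) ^ 2 * ({p : ℤ × ℤ | LowB X S s k p}.ncard : ℤ) ≤
    K * ((S.card + 1) * M ^ 47) ^ k * X ^ 5

/-- Part PRM. Existence of `S` with small primes.

Proof. The primes `p₁ < p₂ < …` which are `1` modulo `8` and not in `T`. The sum of `log p / p` over the primes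
`1` modulo `8` diverges (Mathlib: `ArithmeticFunction.vonMangoldt.not_summable_residueClass_prime_div` with `q = 8`,
`a = 1`), hence also without the finitely many primes in `T`. So `p_N ≤ N ^ 2` for infinitely many `N`
(otherwise `log p_N / p_N ≤ C N ^ (- 3 / 2)` for large `N` and the sum converges). Take such an `N`, large,
and `m` the largest number with `m ^ e ≤ N`; then `m ≥ m₀` and `N < (m + 1) ^ e ≤ (2 m) ^ e`. `S` = the first
`m ^ e` of the primes, all at most `N ^ 2 ≤ (2 m) ^ (2 e)`. `s Q` is minus a quadratic nonresidue modulo `Q`. -/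
def S_PRM : Prop := ∀ (T : Finset ℤ) (e m₀ : ℕ), 1 ≤ e → ∃ m ≥ m₀, ∃ (S : Finset ℤ) (s : ℤ → ℤ),
  GoodS S s ∧ S.card = m ^ e ∧ Disjoint S T ∧ ∀ Q ∈ S, Q ≤ (((2 * m) ^ (2 * e) : ℕ) : ℤ)

/-- Part NUM. Numerical estimate.

Proof. The logarithm of the left side is `O(m ^ (e - 1) log m)`. -/
def S_NUM : Prop := ∀ (e : ℕ) (K ε : ℝ), 1 ≤ e → 0 < ε → ∃ m₀ : ℕ, ∀ m ≥ m₀,
  K * (((m ^ e : ℕ) + 1 : ℝ) * (((2 * m) ^ (2 * e) : ℕ) : ℝ) ^ 47) ^ (m ^ (e - 1)) ≤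
    ε * 2 ^ (m ^ e)

end Pool.Agent.H458.AR
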