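import Pool.Graph.R_pool_sql_team_seeded_63374d34.N922.PQ.Stm2
import Pool.Agent.H458.AR.Num

/-!
# Project AR (helper458): all 2-Selmer ranks occur for a positive proportion of all elliptic curves over `ℚ`.
# Part 3: lattices, S-units, local conditions

Definitions of project PQ (`N922/PQ/Def.lean`, `Lat.lean`, `Stm.lean`, `Core.lean`, `Stm2.lean`) are used:
`dsc a b = 4 a³ + 27 b²`, `IsCub a b θ` (`L = ℚ(θ)` cubic, `θ³ + a θ + b = 0`), `h.co i x` (the coordinate of `x`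
at `θ ^ i`), `Ov Q 𝔓` (`𝔓` divides `Q`), `Ev 𝔓 x` (the valuation of `x` is even), `Sq1 𝔓 x` (`x` is a square at
`𝔓`), `U0 𝔓 ϖ x` (the class of `x` at `𝔓` is trivial or that of `ϖ`), `TTV`, `IsoAt`, `Loc2`, `PL`, `ff`,
`GoodS`, `GoodT`, `Fam`. All the parts `S_..` of PQ are proved (see `N922/PQ/Final.lean`, `Final2.lean`), in
particular `S_INT` (the ring of integers is `ℤ[θ]`, `Pool.Agent.N849.PQ.int`), `S_EXQ`
(`Pool.Agent.N747.PQ.exq`), `S_NS`, `S_P3` (`Pool.Agent.N667.PQ.ns`, `.p3`), `S_MAJ`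
(`Pool.Agent.N50.PQ.Maj.maj`), `S_RED` (`Pool.Agent.N945.PQ.RED.main`), `S_TTV` (`Pool.Agent.N301.PQ.ttv`),
`S_DET` (`Pool.Agent.N227.PQ.det`), `S_CHI` (`Pool.Agent.N738.PQ.chi`), `S_RAM` (`Pool.Agent.N966.PQ.ram`).
-/

set_option autoImplicit false
set_option linter.all false

open IsDedekindDomain NumberField Matrix Polynomial
open scoped Classical

namespace Pool.Agent.H458.AR

open Pool.Agent.N922.PQ
open Pool.Agent.N874.PP (Ev Sq1 U0)

/-! ### Lattices -/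

/-- `e` is a basis of the lattice `I = {x | x² / α is integral}` (the fractional ideal with valuations
`⌈v(α) / 2⌉`). -/
structure SR {L : Type} [Field L] [CharZero L] (e : Fin 3 → L) (α : L) : Prop where
  li : LinearIndependent ℚ e
  mem : ∀ x : L, IsIntegral ℤ (x ^ 2 / α) ↔ ∃ c : Fin 3 → ℤ, x = ∑ i, (c i : L) * e i

/-- Part SRE. Existence of the basis.

Proof. `{x | x² / α ∈ O}` is the fractional ideal `I` of all `x` with `2 v(x) ≥ v(α)` for all primes; it is a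
free `ℤ`-module of rank 3 and spans `L` (compare `Pool.Agent.N400.PQSD.basis_I` in
`N400/PQ/SD.lean`: every non-zero fractional ideal of `O` has a `ℤ`-basis which is a `ℚ`-basis of `L`). -/
def S_SRE : Prop := ∀ (L O : Type) [Field L] [NumberField L] [CommRing O] [IsDedekindDomain O]
  [Algebra O L] [IsFractionRing O L] [IsIntegralClosure O ℤ L],
  Module.finrank ℚ L = 3 → ∀ α : L, α ≠ 0 → ∃ e : Fin 3 → L, SR e α

/-- Part SRG. The Gram matrices of `c₂(x y / α)` and `c₁(x y / α)` are integral, and `D G⁻¹` is integral if `D` is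
divisible by all the primes at which the valuation of `α` is odd.

Proof. For `x, y ∈ I`: `v(x y / α) ≥ 2 ⌈v(α)/2⌉ - v(α) ≥ 0`, so `e i * e j / α` is integral, and integral
elements have integral coordinates (`S_INT`). The form `c₂(x y)` on `O = ℤ[θ]` is perfect: `c₂(z O) ⊆ ℤ`
implies `z ∈ O` (`z = z₀ + z₁ θ + z₂ θ²`: `c₂ z = z₂`, `c₂(z θ) = z₁`, `c₂(z θ²) = z₀ - a z₂`). Let `e*` be the
dual basis of `e` for the form `c₂(x y / α)` (non-degenerate), so `G⁻¹ = (c₂(e*_i e*_j / α))`. Since `I` is an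
`O`-module, `c₂(e*_i I / α) ⊆ ℤ` gives `e*_i I ⊆ α O`, hence `v(e*_i) ≥ v(α) - ⌈v(α)/2⌉ = ⌊v(α)/2⌋` for all
primes (some element of `I` has the valuation `⌈v(α)/2⌉` at the prime). So `v(e*_i e*_j / α) ≥ 0` where `v(α)` is
even and `≥ -1` where it is odd, and there `v(D) ≥ 1`. Hence `D e*_i e*_j / α` is integral. (`N227/PQ/Det.lean`
has the case of even valuations.) -/
def S_SRG : Prop := ∀ (L O : Type) [Field L] [NumberField L] [CommRing O] [IsDedekindDomain O]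
  [Algebra O L] [IsFractionRing O L] [IsIntegralClosure O ℤ L] (a b : ℤ) (θ : L)
  (h : IsCub a b θ), Squarefree (dsc a b) → ∀ (α : L) (e : Fin 3 → L), α ≠ 0 → SR e α →
  ∀ D : ℤ, D ≠ 0 → (∀ 𝔓 : HeightOneSpectrum O, ¬ Ev 𝔓 α → Ov D 𝔓) →
  ∃ G G' B : Matrix (Fin 3) (Fin 3) ℤ, G.IsSymm ∧ B.IsSymm ∧
    (∀ i j, (G i j : ℚ) = h.co 2 (e i * e j / α)) ∧ (∀ i j, (B i j : ℚ) = h.co 1 (e i * e j / α)) ∧
    G * G' = D • (1 : Matrix (Fin 3) (Fin 3) ℤ)

/-- Part CHR. The characteristic polynomial.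

Proof. `c₁(z) = c₂(θ z)`. So `B = G M`, `M` the matrix of the multiplication by `θ` in the basis `e`
(`θ e_j = ∑ M i j e_i`), whose characteristic polynomial is `X³ + a X + b` (degree 3, `minpoly`:
`IsCub.minpoly_eq`). -/
def S_CHR : Prop := ∀ (L : Type) [Field L] [NumberField L] (a b : ℤ) (θ : L) (h : IsCub a b θ)
  (α : L) (e : Fin 3 → L), α ≠ 0 → LinearIndependent ℚ e → ∀ G B : Matrix (Fin 3) (Fin 3) ℤ,
  (∀ i j, (G i j : ℚ) = h.co 2 (e i * e j / α)) → (∀ i j, (B i j : ℚ) = h.co 1 (e i * e j / α)) →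
  ChR G B a b

/-- Part TVR. Local squares give common isotropic vectors modulo `Q` (library part `S_TTV` for the lattices
`SR`).

Proof. As `S_TTV` (`N301/PQ/TTV.lean`). There are two primes `𝔓₁`, `𝔮` over `Q`, `O / Q O` is the product of the
residue fields. Choose `x ∈ I` with `v(x) = v(α) / 2` at both primes (even valuations there) such that
`x² / α ≡ 1` modulo both primes: if `α ≡ s²` at `𝔓` then we want `x ≡ ± s`; two choices of the signs `(+, +)`,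
`(+, -)` give `x`, `x'` (Chinese remainder theorem in `I`). Then `x² / α - 1 ∈ Q O`, so `c₁`, `c₂` are divisible
by `Q`. The coordinate vectors `ξ`, `ξ'` are independent modulo `Q`, otherwise `x' ≡ c x` modulo `Q I`, `c ∈ ℤ`,
`c ≡ 1` at `𝔓₁` and `c ≡ -1` at `𝔮`. -/
def S_TVR : Prop := ∀ (L O : Type) [Field L] [NumberField L] [CommRing O] [IsDedekindDomain O]
  [Algebra O L] [IsFractionRing O L] [IsIntegralClosure O ℤ L] (a b : ℤ) (θ : L),
  IsCub a b θ → Squarefree (dsc a b) →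
  ∀ (α : L) (e : Fin 3 → L), α ≠ 0 → SR e α → ∀ Q : ℤ, Prime Q → ¬ Q ∣ 2 → Q ∣ b →
    (∀ z : ℤ, ¬ Q ∣ z ^ 2 + a) → (∀ 𝔓 : HeightOneSpectrum O, Ov Q 𝔓 → Ev 𝔓 α) →
    (∀ 𝔓 : HeightOneSpectrum O, Ov Q 𝔓 → Sq1 𝔓 α) → TTV Q θ e α

/-- Part LBR. From a class with odd valuations at the primes over `Zr`, square at the primes over `S \ Z`,
whose ternary form `c₂(x² / α)` is anisotropic over `ℚ`, to a pair of integral forms.

Proof. `e` from SRE, `H` from `S_MAJ` (`N α > 0` as a square), so `det H = |det G| = δ`, `1 ≤ δ ≤ D³`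
(`det G det G' = D³`). Apply `S_RED` to `δ ^ (-1/3) H`: `U ∈ GL₃(ℤ)`, and with `h_i = δ ^ (1/6) h'_i` (increasing)
`h₀ h₁ h₂ ≤ 8 δ ^ (1/2) ≤ 8 D ^ (3/2)`. Put `e'_i = ∑ U i j e_j`; then `SR e' α`. Take `G, G', B` of SRG for `e'`
(`D = ∏ Q ∈ Zr, Q`; a prime `𝔓` with `¬ Ev 𝔓 α` divides some `Q ∈ Zr`, hence `D`). `G 0 0` is an integer, not zero
since the form is anisotropic, so `1 ≤ |G 0 0| ≤ h₀²`; so `1 ≤ h₀ ≤ h₁ ≤ h₂ ≤ 8 D ^ (3/2)`, and
`|G i j| ≤ h_i h_j ≤ 64 D³ ≤ 64 D⁴`, `|B i j| ≤ 2 X h_i h_j ≤ 128 D⁴ X`. ChR by CHR. For `Q ∈ S \ Z` by TVR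
`TTV Q θ e' α`, that is `TTM Q G B` (`c_i` of `(∑ ξ_i e'_i)² / α` is `ξ ⬝ G ξ`, `ξ ⬝ B ξ`; note that at these `Q`
the valuations of `α` are even as `Q ∤ D`, hypothesis `hev`). `Q ∣ a - s Q`, `Q ∣ b` by `Fam`. -/
def S_LBR : Prop := ∀ (L O : Type) [Field L] [NumberField L] [CommRing O] [IsDedekindDomain O]
  [Algebra O L] [IsFractionRing O L] [IsIntegralClosure O ℤ L] (a b : ℤ) (θ : L) (X : ℕ)
  (S T : Finset ℤ) (s A B : ℤ → ℤ) (h : IsCub a b θ), GoodS S s → Fam X S s T A B a b →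
  ∀ (Zr Z : Finset ℤ), Zr ⊆ Z → Z ⊆ S → ∀ α : L, α ≠ 0 → IsSquare (Algebra.norm ℚ α) →
  (∀ 𝔓 : HeightOneSpectrum O, ¬ Ev 𝔓 α → ∃ Q ∈ Zr, Ov Q 𝔓) →
  (∀ Q ∈ S \ Z, ∀ 𝔓 : HeightOneSpectrum O, Ov Q 𝔓 → Sq1 𝔓 α) →
  (∀ x : L, x ≠ 0 → h.co 2 (x ^ 2 / α) ≠ 0) → ABad X (S \ Z) s (∏ Q ∈ Zr, Q) (a, b)

/-! ### S-units -/

/-- Part SUN. The group of the `x` with even valuations outside finitely many primes `𝔮 i`, modulo squares,
over a field with two infinite places (unit rank one).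

Proof. Let `A` be the group of the units outside the `𝔮 i` and `val : A → ℤ ^ ι` the valuations at the `𝔮 i`. The
kernel is the unit group of `O`, `≅ μ × ℤ` with `μ` finite cyclic of even order (Dirichlet; Mathlib
`NumberField.Units`), the image has finite index (it contains `h ℤ ^ ι`, `h` the class number), so it is free of
rank `|ι|`; choose `a_j ∈ A` such that the `val a_j` are a basis of the image, `t` a generator of `μ`, `ε` a
generator of the units modulo `μ`. Put `g c = t ^ c₀ ε ^ c₁ ∏ a_j ^ c_j` (exponents `0`, `1`). If this is a square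
`y²` in `L` then `y ∈ A`, `2 val y = ∑ c_j val a_j`, so `c_j = 0`, then `y` is a unit and `c₀ = c₁ = 0`. -/
def S_SUN : Prop := ∀ (L O : Type) [Field L] [NumberField L] [CommRing O] [IsDedekindDomain O]
  [Algebra O L] [IsFractionRing O L] [IsIntegralClosure O ℤ L],
  Fintype.card (InfinitePlace L) = 2 → ∀ (ι : Type) [Fintype ι] (𝔮 : ι → HeightOneSpectrum O),
  Function.Injective 𝔮 → ∃ g : (Fin 2 → ZMod 2) × (ι → ZMod 2) → L, (∀ c, g c ≠ 0) ∧
    (∀ c, ∀ 𝔓 : HeightOneSpectrum O, (∀ i, 𝔓 ≠ 𝔮 i) → Ev 𝔓 (g c)) ∧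
    (∀ c c', IsSquare (g c * g c' * g (c + c'))) ∧ ∀ c, IsSquare (g c) → c = 0

/-- Part PLC. The cubic field has two infinite places if `a > 0`.

Proof. `x³ + a x + b` is increasing, so it has exactly one real zero; one real and one pair of complex
embeddings. -/
def S_PLC : Prop := ∀ (L : Type) [Field L] [NumberField L] (a b : ℤ) (θ : L), IsCub a b θ → 0 < a →
  Fintype.card (InfinitePlace L) = 2

/-- Part NSG. If all valuations outside the primes `𝔮 Q` of degree two are even then the norm is a square up to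
sign.

Proof. `(α) = I² ∏ 𝔮_Q ^ n_Q`, the absolute norm of `𝔮 Q` is `Q²` (there are two primes `𝔓₁`, `𝔮` over `Q`, `S_EXQ`,
so the norm of `𝔮` is `Q` or `Q²`; it is not `Q` since `θ² + a ∈ 𝔮`, because `θ (θ² + a) = -b ∈ 𝔮` and `θ` is a unit
at `𝔮`, while `-a` is not a square modulo `Q`). So `|N α|` is the square of a rational number. -/
def S_NSG : Prop := ∀ (L O : Type) [Field L] [NumberField L] [CommRing O] [IsDedekindDomain O]
  [Algebra O L] [IsFractionRing O L] [IsIntegralClosure O ℤ L] (a b : ℤ) (θ : L),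
  IsCub a b θ → Squarefree (dsc a b) → ∀ S : Finset ℤ,
  (∀ Q ∈ S, Prime Q ∧ Q ∣ b ∧ ∀ z : ℤ, ¬ Q ∣ z ^ 2 + a) → ∀ 𝔮 : ℤ → HeightOneSpectrum O,
  (∀ Q ∈ S, Ov Q (𝔮 Q) ∧ (𝔮 Q).valuation L θ = 1) → ∀ α : L, α ≠ 0 →
  (∀ 𝔓 : HeightOneSpectrum O, (∀ Q ∈ S, 𝔓 ≠ 𝔮 Q) → Ev 𝔓 α) →
  IsSquare (Algebra.norm ℚ α) ∨ IsSquare (-Algebra.norm ℚ α)

/-- Part IX2. The local condition at `2` has index two.

Proof. By `S_NF2` (`Pool.Agent.N907.PV.t_NF2`) `α = c² pol(g₁, g₂, …)`, with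
`pol = 1 + 2 (g₁ θ + g₂ θ²) + 4 (r + s θ + t θ²)`, `r ≡ g₁ (1 + g₂)` modulo `2`; by `S_PT2`
(`Pool.Agent.N951.PV.PT2`, theorem `pt2`; use `pl_sq`, `cast_congr`, `pol_map` there) the class satisfies
`Loc2` if `(g₁, g₂)` is `(0, 0)` or `v = ((1 - a) / 2, (3 - a) / 2)` modulo `2`; `v` is not `(0, 0)` modulo 2. If
`α`, `β` do not satisfy `Loc2` then their pairs `(g₁, g₂)` modulo `2` are in the other coset of `{0, v}` in
`(ZMod 2)²`, so the sum is `0` or `v`. The normal form of `α β`: `α β = c''² pol(g₁'', g₂'', …)`; comparing,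
`pol'' / (pol pol')` is the square of a `γ ∈ L`, and `γ` is integral at `2` with `γ² ≡ 1` modulo `2`; as `2` is
inert (`a`, `b` odd), `γ ≡ 1` modulo `2`, `γ² ≡ 1` modulo `4`, so `g_i'' ≡ g_i + g_i'` modulo `2`. (Alternatively
show directly that `c''² pol''` with the pair `(g + g')` works.) -/
def S_IX2 : Prop := ∀ (L : Type) [Field L] [NumberField L] (a b : ℤ) (θ : L), IsCub a b θ → Odd a →
  (4 : ℤ) ∣ a - b → ∀ α β : L, α ≠ 0 → β ≠ 0 → IsSquare (Algebra.norm ℚ α) →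
  IsSquare (Algebra.norm ℚ β) → ¬ Loc2 a b θ α → ¬ Loc2 a b θ β → Loc2 a b θ (α * β)

/-- The relaxed Selmer group. -/
structure InV {L O : Type} [Field L] [NumberField L] [CommRing O] [IsDedekindDomain O]
    [Algebra O L] [IsFractionRing O L] (a b : ℤ) (θ : L) (S : Finset ℤ)
    (𝔮 : ℤ → HeightOneSpectrum O) (α : L) : Prop where
  ne : α ≠ 0
  nm : IsSquare (Algebra.norm ℚ α)
  l2 : Loc2 a b θ α
  ev : ∀ 𝔓 : HeightOneSpectrum O, (∀ Q ∈ S, 𝔓 ≠ 𝔮 Q) → Ev 𝔓 α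

/-- Part VDM. The relaxed Selmer group has at least `2 ^ |S|` classes.

Proof. SUN for the `𝔮 Q`, `Q ∈ S` (PLC; they are different since they divide different primes,
`Pool.Agent.N922.PQ.below_unique`), gives `2 ^ (n + 2)` classes. By NSG the norm of each is a square up to sign; the
classes with square norm form a subgroup of index at most two of `(Fin 2 → ZMod 2) × (S → ZMod 2)`. By IX2 and
`S_PLM` (`Pool.Agent.N803.PQ.plm`, lemma `loc2_mul` in `N922/PQ/Core.lean`) those with `Loc2` form in it a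
subgroup of index at most two. So at least `2 ^ n` remain: an injection of `S → ZMod 2` into this
subgroup. (`a` is odd: `2 ∈ T` and `X³ + a X + b` has no zero modulo `2`; that `Loc2` only depends on the class
modulo squares follows from `loc2_mul` and `Loc2 (y²)`.) -/
def S_VDM : Prop := ∀ (L O : Type) [Field L] [NumberField L] [CommRing O] [IsDedekindDomain O]
  [Algebra O L] [IsFractionRing O L] [IsIntegralClosure O ℤ L] (a b : ℤ) (θ : L) (X : ℕ)
  (S T : Finset ℤ) (s A B : ℤ → ℤ), IsCub a b θ → GoodS S s → GoodT T A B →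
  Fam X S s T A B a b → (4 : ℤ) ∣ a - b → ∀ 𝔮 : ℤ → HeightOneSpectrum O,
  (∀ Q ∈ S, Ov Q (𝔮 Q) ∧ (𝔮 Q).valuation L θ = 1) →
  ∃ g : (S → ZMod 2) → L, (∀ c, InV a b θ S 𝔮 (g c)) ∧ ∀ c c', IsSquare (g c * g c') → c = c'

/-! ### The 2-Selmer group in terms of the cubic field: local conditions

`PL F A B h`: the class of the polynomial `h` modulo `X³ + A X + B` is in the image of the points of
`y² = x³ + A x + B` over `F`. `ϑ` is a zero of `X³ + A X + B` in `L`. For the twist by `D`, `A = a D²`,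
`B = b D³`, `ϑ = D θ`. -/

/-- The local condition over `F` for `α ∈ L`. -/
def LC (F : Type) [Field F] [Algebra ℚ F] {L : Type} [Field L] [CharZero L] (A B : ℤ) (ϑ α : L) : Prop :=
  ∀ h : ℚ[X], aeval ϑ h = α → PL F A B (h.map (algebraMap ℚ F))

/-- `α` represents an element of the 2-Selmer group of `y² = x³ + A x + B`. -/
structure Sl {L : Type} [Field L] [CharZero L] (A B : ℤ) (ϑ α : L) : Prop where
  ne : α ≠ 0
  fin : ∀ (p : ℕ) [Fact p.Prime], LC ℚ_[p] A B ϑ α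
  real : LC ℝ A B ϑ α

/-- Part NQ. The norm of a Selmer class is a square.

Proof. Let `h(ϑ) = α`. In `F[X]/(f)`, `f = X³ + A X + B`: if `f ∣ h - g²` then the norm (resultant) of `h` is the
square of the norm of `g`; if `f ∣ (x - X) h - g²` then `N(x - X) N(h) = N(g)²` and `N(x - X) = f(x) = y² ≠ 0`. So
the rational number `N α` is a square in all `ℚ_p` and in `ℝ`, hence a square (its valuations are even and it is
positive). `N α` maps to the norm of `h` over `F` by base change (e.g. as a resultant or as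
`Algebra.norm` of `AdjoinRoot`). -/
def S_NQ : Prop := ∀ (L : Type) [Field L] [NumberField L] (A B : ℤ) (ϑ : L), IsCub A B ϑ →
  ∀ α : L, Sl A B ϑ α → IsSquare (Algebra.norm ℚ α)

/-- Part L2. The condition at `2` for the twist by `D ≡ 1` modulo `8`.

Proof. `D = δ²` in `ℤ_2`; `(x, y) ↦ (D x, δ³ y)` and `h ↦ h(D X)`. One direction is
`Pool.Agent.N279.PV.twg` (or `Pool.Agent.N3.PQ.tw2`), the other is the same computation. `PL2` is `PL ℚ_[2]`
(`Iff.rfl`). -/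
def S_L2 : Prop := ∀ (L : Type) [Field L] [NumberField L] (a b D : ℤ) (θ : L), IsCub a b θ → 0 < D →
  D % 8 = 1 → ∀ α : L, α ≠ 0 →
  (LC ℚ_[2] (a * D ^ 2) (b * D ^ 3) ((D : L) * θ) α ↔ Loc2 a b θ α)

/-- Part EVP. The valuations are even at the primes which do not divide `6 D` and at which the discriminant has
valuation at most one.

Proof. Library `Pool.Agent.N75.PM.loc1m : Pool.Agent.N874.PM.S_LOC1M` (`N75/PM/Loc1.lean`) with `M = ℚ`, `R = 𝓞 ℚ`,
`w` the prime of `𝓞 ℚ` given by `p`, and the isomorphism `w.adicCompletion ℚ ≅ ℚ_[p]`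
(Mathlib.NumberTheory.Padics.HeightOneSpectrum: `Rat.HeightOneSpectrum.adicCompletion.padicEquiv`). -/
def S_EVP : Prop := ∀ (L O : Type) [Field L] [NumberField L] [CommRing O] [IsDedekindDomain O]
  [Algebra O L] [IsFractionRing O L] [IsIntegralClosure O ℤ L] (a b D : ℤ) (θ : L), IsCub a b θ →
  ∀ (p : ℕ) [Fact p.Prime], p ≠ 2 → p ≠ 3 → ¬ (p : ℤ) ∣ D → ¬ (p : ℤ) ^ 2 ∣ dsc a b →
  ∀ α : L, α ≠ 0 → LC ℚ_[p] (a * D ^ 2) (b * D ^ 3) ((D : L) * θ) α →
  ∀ 𝔓 : HeightOneSpectrum O, Ov (p : ℤ) 𝔓 → Ev 𝔓 α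

/-- Part RQ. The condition at a prime `p ∈ J`, from the library: `Pool.Agent.N849.PM.loc2m :
Pool.Agent.N874.PM.S_LOC2M` (`N849/PM/Loc2.lean`), as for EVP. -/
def S_RQ : Prop := ∀ (L O : Type) [Field L] [NumberField L] [CommRing O] [IsDedekindDomain O]
  [Algebra O L] [IsFractionRing O L] [IsIntegralClosure O ℤ L] (a b D' : ℤ) (θ : L),
  IsCub a b θ → Squarefree (dsc a b) → ∀ (p : ℕ) [Fact p.Prime], p ≠ 2 → p ≠ 3 → (p : ℤ) ∣ b →
  (∀ z : ℤ, ¬ (p : ℤ) ∣ z ^ 2 + a) → ¬ (p : ℤ) ∣ D' → ∀ α : L, α ≠ 0 →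
  LC ℚ_[p] (a * (p * D') ^ 2) (b * (p * D') ^ 3) (((p * D' : ℤ) : L) * θ) α →
  (∀ 𝔓 : HeightOneSpectrum O, Ov (p : ℤ) 𝔓 → 𝔓.valuation L θ = 1 → U0 𝔓 ((p : L) * θ) α) ∧
  ∀ 𝔓 : HeightOneSpectrum O, Ov (p : ℤ) 𝔓 → 𝔓.valuation L θ < 1 → Ev 𝔓 α

/-- Part HNS (Hensel). A unit which is a square modulo `p` is a square, in `ℤ_p[X]/(f)`.

Proof. `A = ℤ_p[X]/(f)` is a finite free `ℤ_p`-module, complete for the `p`-adic topology; `Y² - h` has the root
`g` modulo `p` with derivative `2 g`, a unit modulo `p` (`h` is a unit modulo `(p, f)`, so `g` is; and `p` is in the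
radical of `A`). Newton iteration or `Henselian` (Mathlib: `IsAdicComplete.henselianRing` for the ideal `p A`). -/
def S_HNS : Prop := ∀ (p : ℕ) [Fact p.Prime], p ≠ 2 → ∀ f h g : ℤ_[p][X], f.Monic →
  IsCoprime (h.map (PadicInt.toZMod : ℤ_[p] →+* ZMod p)) (f.map PadicInt.toZMod) →
  f.map PadicInt.toZMod ∣ (h - g ^ 2).map PadicInt.toZMod → ∃ g' : ℤ_[p][X], f ∣ h - g' ^ 2

/-- Part FPT. The classes with square norm modulo `p` come from points.

Proof. Let `f = X³ + a X + b` over `F = ZMod p`. If `f` is irreducible then `F[X]/(f)` is a field with `p³`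
elements and an element whose norm is a square is a square. Let `p ≥ 1000`. If `f = (X - e) q(X)`, `q`
irreducible: the norm of `h` is `h(e) N(h mod q)`, and an element of `F[X]/(q)` is a square iff its norm to `F` is.
So `h` is a square or `h(e)` and `h mod q` are non-squares; in the second case one needs `x` with `χ(x - e) = -1`,
`χ(q(x)) = -1` (`q(x)` is the norm of `x - X` modulo `q`); the number of such `x` is
`1/4 ∑ (1 - χ(x - e)) (1 - χ(q(x)))` up to a bounded error, and `∑ χ(x - e) = 0`, `|∑ χ(q(x))| ≤ 10 √p`,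
`|∑ χ(f(x))| ≤ 15 √p` (library: `weil_bound` in `Pool.Graph.R_seed8.H341R2.Stepanov`), so it is positive. If `f` has
three different zeros `e_i`: `h(e_i) = ε_i` up to squares, `ε₁ ε₂ ε₃ = 1`; one needs `x` with `χ(x - e_i) = ε_i`: the
same sum `1/8 ∑ ∏ (1 + ε_i χ(x - e_i))`, with the quadratic and the cubic character sums. If `f = (X - c)² (X - d)`,
`c ≠ d`: `F[X]/(f)` is `F[X]/(X - c)² × F`, an element is a square iff its values at `c` and `d` are; the norm is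
`h(c)² h(d)`, so `h(d)` is a square; if `h(c)` is not, one needs `x` with `χ(x - c) = -1`, `χ(x - d) = 1`. A triple
zero is impossible (it would be `0`, then `a = b = 0`). In all cases `y² = f(x) ≠ 0` is solvable. -/
def S_FPT : Prop := ∀ (p : ℕ) [Fact p.Prime], p ≠ 2 → ∀ a b : ZMod p, ¬ (a = 0 ∧ b = 0) →
  (1000 ≤ p ∨ Irreducible (X ^ 3 + C a * X + C b : (ZMod p)[X])) → ∀ h : (ZMod p)[X],
  IsCoprime h (X ^ 3 + C a * X + C b) →
  IsSquare (Algebra.norm (ZMod p) (AdjoinRoot.mk (X ^ 3 + C a * X + C b : (ZMod p)[X]) h)) →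
  (∃ g : (ZMod p)[X], X ^ 3 + C a * X + C b ∣ h - g ^ 2) ∨
  ∃ x y : ZMod p, y ≠ 0 ∧ y ^ 2 = x ^ 3 + a * x + b ∧
    ∃ g : (ZMod p)[X], X ^ 3 + C a * X + C b ∣ (C x - X) * h - g ^ 2

/-- Part UNT. A class with even valuations over `p` has a representative which is a unit at `p`, in `ℤ[θ]`.

Proof. Weak approximation: `γ ∈ L` with `2 v(γ) = - v(α)` at the primes over `p`; then `α γ²` is a unit at `p`;
multiply by `m²`, `m` an integer prime to `p`, to make it integral, so in `ℤ[θ]` (`S_INT`), equal to `h'(θ)`.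
It is a unit at all primes over `p`, so it is invertible in `ℤ[θ]/(p) = F_p[X]/(f)`. -/
def S_UNT : Prop := ∀ (L O : Type) [Field L] [NumberField L] [CommRing O] [IsDedekindDomain O]
  [Algebra O L] [IsFractionRing O L] [IsIntegralClosure O ℤ L] (a b : ℤ) (θ : L),
  IsCub a b θ → Squarefree (dsc a b) → ∀ (p : ℕ) [Fact p.Prime], ∀ α : L, α ≠ 0 →
  (∀ 𝔓 : HeightOneSpectrum O, Ov (p : ℤ) 𝔓 → Ev 𝔓 α) →
  ∃ (γ : L) (h' : ℤ[X]), γ ≠ 0 ∧ α * γ ^ 2 = aeval θ h' ∧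
    IsCoprime (h'.map (Int.castRingHom (ZMod p)))
      (X ^ 3 + C ((a : ℤ) : ZMod p) * X + C ((b : ℤ) : ZMod p))

/-- Part GDP. Local solubility at the primes outside `2 D`.

Proof. `α γ² = h'(θ)` by UNT. For the twist `A = a D²`, `B = b D³`, `ϑ = D θ`: over `ℤ_p` (`D` is a unit)
`h''(X) = h'(X / D)`, `h''(ϑ) = α γ²`, is a unit modulo `(p, X³ + A X + B)`, with square norm modulo `p` (`N α` is a
square). By FPT (`A`, `B` are not both `0` modulo `p`, otherwise `p² ∣ dsc a b`; if `X³ + a X + b` is irreducible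
modulo `p` so is `X³ + A X + B`) `h''` is a square modulo `(p, X³ + A X + B)` or `(x - X) h''` is, where
`y² = x³ + A x + B ≠ 0` modulo `p`; in the second case lift `x` to `ℤ_p` and `y` by Hensel. Then HNS for `h''` or
`(x - X) h''` (coprime to `X³ + A X + B` modulo `p` since `x` is not a zero). Finally for every `h` with
`h(ϑ) = α` the polynomials `h G²` and `h''` agree modulo `X³ + A X + B`, `G(ϑ) = γ`, `G` invertible modulo
`X³ + A X + B`. (`pl_congr`, `pl_sq` in `N951/PV/PT2.lean`.) -/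
def S_GDP : Prop := ∀ (L O : Type) [Field L] [NumberField L] [CommRing O] [IsDedekindDomain O]
  [Algebra O L] [IsFractionRing O L] [IsIntegralClosure O ℤ L] (a b D : ℤ) (θ : L),
  IsCub a b θ → Squarefree (dsc a b) → ∀ (p : ℕ) [Fact p.Prime], p ≠ 2 → ¬ (p : ℤ) ∣ D →
  (1000 ≤ p ∨ ∀ z : ℤ, ¬ (p : ℤ) ∣ z ^ 3 + a * z + b) → ∀ α : L, α ≠ 0 →
  IsSquare (Algebra.norm ℚ α) → (∀ 𝔓 : HeightOneSpectrum O, Ov (p : ℤ) 𝔓 → Ev 𝔓 α) →
  LC ℚ_[p] (a * D ^ 2) (b * D ^ 3) ((D : L) * θ) α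

/-- Part RJP. Local solubility at a prime `p ∈ J` (converse of RQ).

Proof. Over `ℤ_p` `X³ + a X + b = (X - θ₁) q(X)`, `θ₁ ≡ 0`, `q ≡ X² + a` irreducible modulo `p` (Hensel); let `θ₂` be
the zero of `q` in the unramified quadratic extension `ℚ_p(θ₂)`. `D = p D'`, `ϑ_i = D θ_i`. The condition at `𝔮`
(`v(θ) = 1`): the class of `α` in `ℚ_p(θ₂)` is `1` or that of `p θ₂`; at the other prime the valuation is
even. The class at `θ₁` is that of the norm of the component at `θ₂` (`N α` is a square). If the class at `θ₂` is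
trivial then `α` is a square at both primes: first alternative of `PL` (the valuation at `θ₁` is even and the
unit part is a square). Otherwise let `n₂ = N(ϑ₁ - ϑ₂) = D² q(θ₁) ∈ ℚ_p`, and `x = ϑ₁ + t² n₂` with `t ∈ ℚ_p` not zero
and very small. Then `x - ϑ₁ = t² n₂`, and `x - ϑ₂` is `(ϑ₁ - ϑ₂)` times a square, so
`x³ + A x + B = t² n₂ N(x - ϑ₂)` is a non-zero square `y²`. `ϑ₁ - ϑ₂ = - D θ₂ (1 - θ₁/θ₂)` is `p θ₂` times the unit
`-D'` of `ℤ_p` (a square in `ℚ_p(θ₂)`) times a square. So `(x - ϑ) α` is a square at `θ₂`, and at `θ₁`: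
the component `n₂ t²` times the class of `N(p θ₂)`, and `n₂` has the class of `N(p θ₂)`. -/
def S_RJP : Prop := ∀ (L O : Type) [Field L] [NumberField L] [CommRing O] [IsDedekindDomain O]
  [Algebra O L] [IsFractionRing O L] [IsIntegralClosure O ℤ L] (a b D' : ℤ) (θ : L),
  IsCub a b θ → Squarefree (dsc a b) → ∀ (p : ℕ) [Fact p.Prime], p ≠ 2 → p ≠ 3 → (p : ℤ) ∣ b →
  (∀ z : ℤ, ¬ (p : ℤ) ∣ z ^ 2 + a) → ¬ (p : ℤ) ∣ D' → ∀ α : L, α ≠ 0 →
  IsSquare (Algebra.norm ℚ α) →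
  (∀ 𝔓 : HeightOneSpectrum O, Ov (p : ℤ) 𝔓 → 𝔓.valuation L θ = 1 → U0 𝔓 ((p : L) * θ) α) →
  (∀ 𝔓 : HeightOneSpectrum O, Ov (p : ℤ) 𝔓 → 𝔓.valuation L θ < 1 → Ev 𝔓 α) →
  LC ℚ_[p] (a * (p * D') ^ 2) (b * (p * D') ^ 3) (((p * D' : ℤ) : L) * θ) α

/-- Part RLP. The condition at the real place.

Proof. For `A > 0` the polynomial `f = X³ + A X + B` has exactly one real zero `e`; `ℝ[X]/(f) = ℝ × ℂ`. `h(ϑ) = α`
and `N α = h(e) |h(z)|² > 0`, so `h(e) > 0` and `h` is a square modulo `f` over `ℝ`. -/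
def S_RLP : Prop := ∀ (L : Type) [Field L] [NumberField L] (A B : ℤ) (ϑ : L), IsCub A B ϑ → 0 < A →
  ∀ α : L, α ≠ 0 → IsSquare (Algebra.norm ℚ α) → LC ℝ A B ϑ α

/-- The conditions of the 2-Selmer group of the twist by `∏ Q ∈ J, Q` in terms of valuations. -/
structure SJ {L O : Type} [Field L] [NumberField L] [CommRing O] [IsDedekindDomain O]
    [Algebra O L] [IsFractionRing O L] (a b : ℤ) (θ : L) (J : Finset ℤ) (α : L) : Prop where
  ne : α ≠ 0
  nm : IsSquare (Algebra.norm ℚ α)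
  l2 : Loc2 a b θ α
  ev : ∀ 𝔓 : HeightOneSpectrum O, (∀ Q ∈ J, ¬ Ov Q 𝔓) → Ev 𝔓 α
  u0 : ∀ Q ∈ J, ∀ 𝔓 : HeightOneSpectrum O, Ov Q 𝔓 → 𝔓.valuation L θ = 1 → U0 𝔓 ((Q : L) * θ) α
  e1 : ∀ Q ∈ J, ∀ 𝔓 : HeightOneSpectrum O, Ov Q 𝔓 → 𝔓.valuation L θ < 1 → Ev 𝔓 α

/-- Part SEL. The 2-Selmer group of the twist by `D = ∏ Q ∈ J, Q`.

Proof. (⇒) NQ (for `IsCub (a D²) (b D³) (D θ)`), L2, EVP for the primes `𝔓` over `p ∤ 6 D`
(`Pool.Agent.N922.PQ.exists_below`), for `p ∈ {2, 3} ⊆ T` by `S_P3` (`Pool.Agent.N667.PQ.p3`; the cubic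
polynomial has no zero modulo `p`, `fam_nt` in Core), RQ for `Q ∈ J` (`D' = D / Q`). (⇐) L2, GDP for `p ∤ 2 D`
(`p ≥ 1000` or `p ∈ T`), RJP for `p ∈ J`, RLP. (`D % 8 = 1`, `D > 0`; a prime `p ∣ D` is in `J`.) -/
def S_SEL : Prop := ∀ (L O : Type) [Field L] [NumberField L] [CommRing O] [IsDedekindDomain O]
  [Algebra O L] [IsFractionRing O L] [IsIntegralClosure O ℤ L] (a b : ℤ) (θ : L) (X : ℕ)
  (S T : Finset ℤ) (s A B : ℤ → ℤ), IsCub a b θ → GoodS S s → GoodT T A B →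
  (∀ p : ℕ, p.Prime → p < 1000 → (p : ℤ) ∈ T) → Disjoint S T →
  Fam X S s T A B a b → ∀ J ⊆ S, ∀ α : L,
  Sl (a * (∏ Q ∈ J, Q) ^ 2) (b * (∏ Q ∈ J, Q) ^ 3) (((∏ Q ∈ J, Q : ℤ) : L) * θ) α ↔
    SJ (O := O) a b θ J α

end Pool.Agent.H458.AR
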