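import Pool.Agent.H458.AR.Fld
import Pool.Graph.R_pool_sql_team_seeded_63374d34.N874.QM.Stm

/-!
# Project AR (helper458): all 2-Selmer ranks occur for a positive proportion of all elliptic curves over `ℚ`.
# Part 4: the 2-Selmer group in terms of cocycles

`Sep M` is the separable closure, `Pt W Ω` the group of the points of `W` over `Ω`, `act` the action of the
Galois group, `IsCoc W f`: `f` is a continuous cocycle of the absolute Galois group, `IsLoc W f`: the class of `f` in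
`H¹(W)` is trivial over the completions at all primes and over `ℝ` (`TH115/GD/Defs.lean`, `N874/QM/Stm.lean`),
`sW A B` the curve `y² = x³ + A x + B`; `IsBeta`, `sg` (Weil pairing with `(t, 0)`), `rr` and the parts
`S_GP1`..`S_GP4`, `S_GB`, `S_GN`, `S_GT` are in `N874/PP/Gal.lean`; they are proved: `Pool.Agent.N630.PP.gp1`..`gp4`
(`N630/PP/GP.lean`), `Pool.Agent.N187.PP.gb`, `gn`, `gt` (hypotheses `gp3`, `gp4`; `N187/PP/GB.lean`, `GN.lean`); the
local conditions `S_GLF`, `S_FARC`, `S_FARR` of `N874/QM/Stm.lean` are `Pool.Agent.N42.QM.glf`,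
`Pool.Agent.N530.QM.farc`, `Pool.Agent.N42.QM.farr` (see `Pool/Agent/H459/AV/Coh.lean` in the team repository,
theorem `coc_pol`, for their use).
-/

set_option autoImplicit false
set_option linter.all false

open IsDedekindDomain NumberField Polynomial
open scoped Classical

namespace Pool.Agent.H458.AR

open Pool.Agent.N922.PQ
open Pool.Agent.N874.PP (sW IsBeta sg Rt rr)
open Pool.Agent.N874.PM (PLoc)
open Pool.Agent.N874.QM (IsLoc)
open Pool.Agent.TH115.GD (Pt act rs IsCoc LocTriv Comp Sep)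

section sel

variable {M : Type} [Field M] [NumberField M]

/-- `f` is a continuous cocycle of the absolute Galois group of `M` with values in the points of order two of
`W`, which is a coboundary in the group of points of `W` at all the places of `M`. -/
structure SelCoc (W : WeierstrassCurve M) (f : (Sep M ≃ₐ[M] Sep M) → Pt W (Sep M)) : Prop where
  coc : IsCoc W f
  two : ∀ σ, (2 : ℕ) • f σ = 0
  loc : IsLoc W f

/-- `f` and `f'` differ by the coboundary of a point of order two. -/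
def Cob (W : WeierstrassCurve M) (f f' : (Sep M ≃ₐ[M] Sep M) → Pt W (Sep M)) : Prop :=
  ∃ T : Pt W (Sep M), (2 : ℕ) • T = 0 ∧ ∀ σ, f σ - f' σ = act W (rs M σ) T - T

theorem Cob.refl (W : WeierstrassCurve M) (f : (Sep M ≃ₐ[M] Sep M) → Pt W (Sep M)) : Cob W f f :=
  ⟨0, smul_zero _, fun σ => by rw [sub_self, map_zero, sub_zero]⟩

theorem Cob.symm {W : WeierstrassCurve M} {f f' : (Sep M ≃ₐ[M] Sep M) → Pt W (Sep M)}
    (h : Cob W f f') : Cob W f' f := by
  obtain ⟨T, hT, h⟩ := h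
  refine ⟨-T, by rw [smul_neg, hT, neg_zero], fun σ => ?_⟩
  rw [map_neg, ← neg_sub (f σ), h]
  abel

theorem Cob.trans {W : WeierstrassCurve M} {f f' f'' : (Sep M ≃ₐ[M] Sep M) → Pt W (Sep M)}
    (h : Cob W f f') (h' : Cob W f' f'') : Cob W f f'' := by
  obtain ⟨T, hT, h⟩ := h
  obtain ⟨T', hT', h'⟩ := h'
  refine ⟨T + T', by rw [smul_add, hT, hT', add_zero], fun σ => ?_⟩
  rw [← sub_add_sub_cancel (f σ) (f' σ) (f'' σ), h, h', map_add]
  abel

/-- The Selmer cocycles up to coboundaries. -/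
def selSetoid (W : WeierstrassCurve M) :
    Setoid {f : (Sep M ≃ₐ[M] Sep M) → Pt W (Sep M) // SelCoc W f} :=
  ⟨fun f f' => Cob W f.1 f'.1, fun f => Cob.refl W f.1, fun h => h.symm, fun h h' => h.trans h'⟩

/-- The 2-Selmer group. -/
def Sel2 (W : WeierstrassCurve M) : Type := Quotient (selSetoid W)

end sel

/-- The polynomial `h` represents the class of the cocycle `f`. -/
def Rl (A B : ℚ) (f : (Sep ℚ ≃ₐ[ℚ] Sep ℚ) → Pt (sW A B) (Sep ℚ)) (h : ℚ[X]) : Prop :=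
  ∃ β : Sep ℚ → Sep ℚ, IsBeta A B f β ∧ ∀ t : Sep ℚ, Rt A B t → aeval t h = β t ^ 2

/-- Part CPL. The local conditions over the completions of `ℚ` at the primes of `𝓞 ℚ` are those over the
`ℚ_p`.

Proof. Mathlib `Rat.HeightOneSpectrum.adicCompletion.padicEquiv` (a `ℚ`-algebra isomorphism
`w.adicCompletion ℚ ≅ ℚ_[p]`) and the bijection `primesEquiv`. -/
def S_CPL : Prop := ∀ (A B : ℤ) (h : ℚ[X]),
  (∀ w : HeightOneSpectrum (𝓞 ℚ), PLoc (w.adicCompletion ℚ) (A : ℚ) (B : ℚ) h) ↔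
  ∀ (p : ℕ) [Fact p.Prime], PL ℚ_[p] A B (h.map (algebraMap ℚ ℚ_[p]))

/-- Part CA. From Selmer cocycles to polynomials.

Proof. `S_GB`, `S_GN` give `β`, `h`; the local conditions from `IsLoc` by `S_GLF`, `S_FARC`, `S_FARR`
(as in `Pool/Agent/H459/AV/Coh.lean`, theorem `coc_pol`). -/
def S_CA : Prop := ∀ A B : ℚ, 4 * A ^ 3 + 27 * B ^ 2 ≠ 0 →
  Irreducible (X ^ 3 + C A * X + C B : ℚ[X]) →
  ∀ f : (Sep ℚ ≃ₐ[ℚ] Sep ℚ) → Pt (sW A B) (Sep ℚ), SelCoc (sW A B) f →
  ∃ h : ℚ[X], Rl A B f h ∧ IsCoprime h (X ^ 3 + C A * X + C B) ∧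
    (∀ w : HeightOneSpectrum (𝓞 ℚ), PLoc (w.adicCompletion ℚ) A B h) ∧ PLoc ℝ A B h

/-- Part CB. Equality of classes.

Proof. (⇒) `f σ - f' σ = σ T - T`. Put `γ t = β t β' t sg(T, t)`. By multiplicativity of `sg` (values `±1`,
`S_GP3`) and `sg(σ T, σ t) = σ (sg(T, t))` (`S_GP4`): `σ (γ t) = γ (σ t)`. So there is `g ∈ ℚ[X]` of degree at most
2 with `g(t) = γ t` for the three zeros `t` (Lagrange interpolation, Galois invariant coefficients), and
`h h' - g²` vanishes at the zeros. (⇐) `g(t) = ε_t β t β' t`, `ε_t = ±1`; replacing `g` by `-g` if necessary the product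
of the three `ε_t` is `1`; so there is `T` with `2 T = 0`, `sg(T, t) = ε_t` (`S_GP3`), and
`f σ - f' σ = σ T - T` because both sides have the same pairing with all `t` (`S_GP3`). -/
def S_CB : Prop := ∀ A B : ℚ, 4 * A ^ 3 + 27 * B ^ 2 ≠ 0 →
  Irreducible (X ^ 3 + C A * X + C B : ℚ[X]) →
  ∀ f f' : (Sep ℚ ≃ₐ[ℚ] Sep ℚ) → Pt (sW A B) (Sep ℚ), IsCoc (sW A B) f → IsCoc (sW A B) f' →
  (∀ σ, (2 : ℕ) • f σ = 0) → (∀ σ, (2 : ℕ) • f' σ = 0) → ∀ h h' : ℚ[X], Rl A B f h → Rl A B f' h' →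
  (Cob (sW A B) f f' ↔ ∃ g : ℚ[X], X ^ 3 + C A * X + C B ∣ h * h' - g ^ 2)

/-- Part CC. Every class with square norm comes from a cocycle.

Proof. Let `t₁, t₂, t₃ ∈ Sep ℚ` be the zeros, `m ∈ ℚ` with `h(t₁) h(t₂) h(t₃) = N = m²`, `m ≠ 0`. Choose square roots
`β t₁`, `β t₂` of `h(t₁)`, `h(t₂)`, and `β t₃ = m / (β t₁ β t₂)`. For `σ` and a zero `t` put
`ε = σ(β(σ⁻¹ t)) / β t = ±1`; the product over the three `t` is `σ(m) / m = 1`. So there is a unique `f σ` with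
`2 f σ = 0` and `sg(f σ, t) = σ(β(σ⁻¹ t)) / β t` (`S_GP3`). It is a cocycle (`S_GP3`, `S_GP4`), locally constant since
it is trivial on the open subgroup fixing the `t_i` and the `β t_i`. -/
def S_CC : Prop := ∀ A B : ℚ, 4 * A ^ 3 + 27 * B ^ 2 ≠ 0 →
  Irreducible (X ^ 3 + C A * X + C B : ℚ[X]) → ∀ h : ℚ[X],
  IsCoprime h (X ^ 3 + C A * X + C B) →
  IsSquare (Algebra.norm ℚ (AdjoinRoot.mk (X ^ 3 + C A * X + C B : ℚ[X]) h)) →
  ∃ f : (Sep ℚ ≃ₐ[ℚ] Sep ℚ) → Pt (sW A B) (Sep ℚ), IsCoc (sW A B) f ∧ (∀ σ, (2 : ℕ) • f σ = 0) ∧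
    Rl A B f h

/-- Part CD. The local condition implies local triviality (converse of `S_GLF`).

Proof. Choose an embedding `ι : Sep ℚ → Sep F` over `ℚ` (`Sep F` is separably closed, `IsSepClosed.lift`). Let
`t₁, t₂, t₃` be the zeros, `c_i = ι(β t_i)`, `c_i² = h(ι t_i)`, `c₁ c₂ c₃ ∈ {m, -m}`. First case of `PLoc`:
`g(ι t_i)² = c_i²`; `c_i = ε_i g(ι t_i)`, `∏ ε_i = 1` after replacing `g` by `-g`; let `T` be the point with
`sg(T, ι t_i) = ε_i`; then the restriction of `f` to `Gal(Sep F / F)` is `τ T - T`. Second case: `(x, y)` a point of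
the curve over `F`, `y ≠ 0`, `(x - ι t_i) c_i² = g(ι t_i)²`. Put `r_i = g(ι t_i) / c_i`, `r_i² = x - ι t_i`,
`(r₁ r₂ r₃)² = y²`; replacing `g` by `-g` we get `r₁ r₂ r₃ = -y` or `y` as we like. The point
`R = (x + r₁ r₂ + r₁ r₃ + r₂ r₃, ± (r₁ + r₂) (r₁ + r₃) (r₂ + r₃))` has `2 R = (x, y)`, and `rr (ι t_i) R = ± r_i` with the
same sign for all `i` (`S_GP1`: `rr² = x - t`; direct computation). As `2 R` is fixed by `τ`, `τ R - R` has order two
and by `S_GP2`, `S_GP4` its pairing with `ι t` is `τ(rr) / rr`, the same as that of `f`, since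
`τ(r_i)` is known from `τ(c_i)` and `τ(g(ι t_i)) = g(τ ι t_i)`. So `f|` is the coboundary of `R`. -/
def S_CD : Prop := ∀ A B : ℚ, 4 * A ^ 3 + 27 * B ^ 2 ≠ 0 →
  Irreducible (X ^ 3 + C A * X + C B : ℚ[X]) →
  ∀ f : (Sep ℚ ≃ₐ[ℚ] Sep ℚ) → Pt (sW A B) (Sep ℚ), IsCoc (sW A B) f → (∀ σ, (2 : ℕ) • f σ = 0) →
  ∀ h : ℚ[X], Rl A B f h → IsCoprime h (X ^ 3 + C A * X + C B) →
  ∀ (F : Type) [Field F] [Algebra ℚ F], PLoc F A B h → LocTriv (sW A B) F (Sep F) f

/-- Part COH. The order of the 2-Selmer group is the number of the classes of the `α ∈ L` with `Sl`.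

Proof. Polynomials `h` modulo `X³ + A X + B` correspond to `α = h(ϑ)`; `f ∣ h h' - g²` iff `α α'` is a square. By CA
and CPL every Selmer cocycle gives `α` with `Sl`; by CC, CD, CPL (and NQ for the norm) every `α` with `Sl` comes
from one (`IsLoc`: for a ring homomorphism `ρ : ℚ → ℝ` the algebra structure is the standard one,
`Subsingleton`); by CB classes correspond. -/
def S_COH : Prop := ∀ (L : Type) [Field L] [NumberField L] (A B : ℤ) (ϑ : L), IsCub A B ϑ →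
  4 * A ^ 3 + 27 * B ^ 2 ≠ 0 → ∀ (n : ℕ) (g : Fin n → L), (∀ i, Sl A B ϑ (g i)) →
  (∀ i j, IsSquare (g i * g j) → i = j) → (∀ α : L, Sl A B ϑ α → ∃ i, IsSquare (α * g i)) →
  Nat.card (Sel2 (sW (A : ℚ) (B : ℚ))) = n

end Pool.Agent.H458.AR
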