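import Pool.Agent.H458.AR.Core
import Pool.Agent.H458.AR.Coh
import Pool.Agent.H922.AR458.LOW
import Pool.Agent.H30.AR458.SEL
import Pool.Graph.R_pool_sql_team_seeded_63374d34.N922.PQ.Final2

/-!
# Project AR (helper458): counting and assembly
-/

set_option autoImplicit false
set_option linter.all false

open Polynomial IsDedekindDomain NumberField
open scoped Classical

namespace Pool.Agent.H458.AR

open Pool.Agent.N922.PQ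
open Pool.Agent.N874.PP (sW)
open Pool.Agent.H922.AR458 (S_LOW1)

/-- Many curves of the family are not bad and do not come from classes of low weight. -/
theorem good_card3 (hFAM : S_FAM2) (hBAD : S_BAD) (hLOW : S_LOW1) (hPRM : S_PRM) (hNUM : S_NUM)
    (κ : ℕ) {T : Finset ℤ} {A B : ℤ → ℤ} (hT : GoodT T A B) (e m₀ : ℕ) (he : 1 ≤ e) :
    ∃ m ≥ m₀, ∃ (S : Finset ℤ) (s : ℤ → ℤ) (c : ℝ), GoodS S s ∧ S.card = m ^ e ∧ Disjoint S T ∧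
      0 < c ∧ ∃ X₀ : ℕ, ∀ X ≥ X₀,
      c * (X : ℝ) ^ 5 ≤ ({p : ℤ × ℤ | ((Fam X S s T A B p.1 p.2 ∧ (4 : ℤ) ∣ p.1 - p.2) ∧
        ¬ LBad κ X S s p.1 p.2) ∧ ¬ LowB X S s (m ^ (e - 1)) p}.ncard : ℝ) := by
  obtain ⟨c, hc, hfam⟩ := hFAM T A B hT
  obtain ⟨K, hK⟩ := hBAD κ
  obtain ⟨K', hK'⟩ := hLOW
  obtain ⟨m₁, hm₁⟩ := hNUM e K' (c / 4) he (by positivity)
  obtain ⟨m₂, hm₂⟩ := exists_nat_ge (4 * (K : ℝ) / c)
  obtain ⟨m, hm, S, s, hS, hcard, hdis, hbd⟩ := hPRM T e (max (max m₀ m₁) (max m₂ 1)) he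
  have hm0 : m₀ ≤ m := ((le_max_left _ _).trans (le_max_left _ _)).trans hm
  have hm1 : m₁ ≤ m := ((le_max_right _ _).trans (le_max_left _ _)).trans hm
  have hm2 : m₂ ≤ m := ((le_max_left _ _).trans (le_max_right _ _)).trans hm
  have hm3 : 1 ≤ m := ((le_max_right _ _).trans (le_max_right _ _)).trans hm
  obtain ⟨X₁, h1⟩ := hfam S s hS hdis
  obtain ⟨X₂, h2⟩ := hK S s hS
  set k := m ^ (e - 1) with hk
  set P : ℝ := ∏ Q ∈ S, (Q : ℝ) ^ 2 with hP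
  have hP0 : 0 < P := Finset.prod_pos fun Q hQ => by
    have : (0 : ℝ) < Q := by exact_mod_cast (hS Q hQ).1.1
    positivity
  have hSpos : 0 < ∏ Q ∈ S, Q := Finset.prod_pos fun Q hQ => (hS Q hQ).1.1
  refine ⟨m, hm0, S, s, c / (2 * P), hS, hcard, hdis, by positivity,
    max (max X₁ X₂) (∏ Q ∈ S, Q).toNat, fun X hX => ?_⟩
  have hF := h1 X (((le_max_left _ _).trans (le_max_left _ _)).trans hX)
  obtain ⟨hfin, hB⟩ := h2 X (((le_max_right _ _).trans (le_max_left _ _)).trans hX)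
  have hprod : ∏ Q ∈ S, Q ≤ (X : ℤ) := by
    have : (∏ Q ∈ S, Q).toNat ≤ X := (le_max_right _ _).trans hX
    omega
  have hM1 : 1 ≤ (2 * m) ^ (2 * e) := Nat.one_le_pow _ _ (by omega)
  obtain ⟨hfin', hL⟩ := hK' X S s k ((2 * m) ^ (2 * e)) hM1 hS hbd hprod
  have hd := Set.le_ncard_diff {p : ℤ × ℤ | LBad κ X S s p.1 p.2}
    {p : ℤ × ℤ | Fam X S s T A B p.1 p.2 ∧ (4 : ℤ) ∣ p.1 - p.2} hfin
  have hd2 := Set.le_ncard_diff {p : ℤ × ℤ | LowB X S s k p}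
    ({p : ℤ × ℤ | Fam X S s T A B p.1 p.2 ∧ (4 : ℤ) ∣ p.1 - p.2} \
      {p : ℤ × ℤ | LBad κ X S s p.1 p.2}) hfin'
  have e' : (({p : ℤ × ℤ | Fam X S s T A B p.1 p.2 ∧ (4 : ℤ) ∣ p.1 - p.2} \
      {p : ℤ × ℤ | LBad κ X S s p.1 p.2}) \ {p : ℤ × ℤ | LowB X S s k p}) =
      {p : ℤ × ℤ | ((Fam X S s T A B p.1 p.2 ∧ (4 : ℤ) ∣ p.1 - p.2) ∧
        ¬ LBad κ X S s p.1 p.2) ∧ ¬ LowB X S s k p} := rfl
  rw [e'] at hd2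
  set F : ℕ := {p : ℤ × ℤ | Fam X S s T A B p.1 p.2 ∧ (4 : ℤ) ∣ p.1 - p.2}.ncard
  set Bd : ℕ := {p : ℤ × ℤ | LBad κ X S s p.1 p.2}.ncard
  set Lw : ℕ := {p : ℤ × ℤ | LowB X S s k p}.ncard
  set G : ℕ := {p : ℤ × ℤ | ((Fam X S s T A B p.1 p.2 ∧ (4 : ℤ) ∣ p.1 - p.2) ∧
    ¬ LBad κ X S s p.1 p.2) ∧ ¬ LowB X S s k p}.ncard
  have hd' : (F : ℝ) ≤ Bd + Lw + G := by
    have : F ≤ Bd + Lw + G := by omega
    exact_mod_cast this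
  have hB' : (2 : ℝ) ^ (m ^ e) * P * Bd ≤ K * (X : ℝ) ^ 5 := by
    rw [hcard] at hB
    have h3 : ((2 ^ (m ^ e) * (∏ Q ∈ S, Q) ^ 2 * (Bd : ℤ) : ℤ) : ℝ) ≤ ((K * X ^ 5 : ℤ) : ℝ) := by
      exact_mod_cast hB
    have e2 : ((2 ^ (m ^ e) * (∏ Q ∈ S, Q) ^ 2 * (Bd : ℤ) : ℤ) : ℝ) =
        (2 : ℝ) ^ (m ^ e) * P * Bd := by
      rw [hP, Finset.prod_pow]
      push_cast
      ring
    rw [e2] at h3
    refine h3.trans (le_of_eq ?_)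
    push_cast
    ring
  have hL' : (2 : ℝ) ^ (m ^ e) * P * Lw ≤
      K' * (((m ^ e : ℕ) + 1 : ℝ) * (((2 * m) ^ (2 * e) : ℕ) : ℝ) ^ 47) ^ k * (X : ℝ) ^ 5 := by
    rw [hcard] at hL
    have h3 : ((2 ^ (m ^ e) * (∏ Q ∈ S, Q) ^ 2 * (Lw : ℤ) : ℤ) : ℝ) ≤
        ((K' * (((m ^ e : ℕ) + 1) * (((2 * m) ^ (2 * e) : ℕ) : ℤ) ^ 47) ^ k * X ^ 5 : ℤ) : ℝ) := by
      exact_mod_cast hL
    have e2 : ((2 ^ (m ^ e) * (∏ Q ∈ S, Q) ^ 2 * (Lw : ℤ) : ℤ) : ℝ) =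
        (2 : ℝ) ^ (m ^ e) * P * Lw := by
      rw [hP, Finset.prod_pow]
      push_cast
      ring
    rw [e2] at h3
    refine h3.trans (le_of_eq ?_)
    push_cast
    ring
  have h2r : (0 : ℝ) < 2 ^ (m ^ e) := by positivity
  have hF' : c * (X : ℝ) ^ 5 ≤ P * F := hF
  have hKc : (K : ℝ) ≤ c / 4 * 2 ^ (m ^ e) := by
    have h3 : 4 * (K : ℝ) / c ≤ 2 ^ (m ^ e) := by
      refine hm₂.trans ?_
      have h4 : m₂ ≤ 2 ^ (m ^ e) := by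
        calc m₂ ≤ m := hm2
          _ = m ^ 1 := (pow_one m).symm
          _ ≤ m ^ e := Nat.pow_le_pow_right hm3 he
          _ ≤ 2 ^ (m ^ e) := Nat.lt_two_pow_self.le
      exact_mod_cast h4
    rw [div_le_iff₀ hc] at h3
    linarith
  have hPB : P * (Bd : ℝ) ≤ c / 4 * (X : ℝ) ^ 5 := by
    rw [← mul_le_mul_iff_right₀ h2r]
    calc 2 ^ (m ^ e) * (P * (Bd : ℝ)) = 2 ^ (m ^ e) * P * Bd := by ring
      _ ≤ K * (X : ℝ) ^ 5 := hB'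
      _ ≤ (c / 4 * 2 ^ (m ^ e)) * (X : ℝ) ^ 5 := by gcongr
      _ = 2 ^ (m ^ e) * (c / 4 * (X : ℝ) ^ 5) := by ring
  have hPL : P * (Lw : ℝ) ≤ c / 4 * (X : ℝ) ^ 5 := by
    rw [← mul_le_mul_iff_right₀ h2r]
    calc 2 ^ (m ^ e) * (P * (Lw : ℝ)) = 2 ^ (m ^ e) * P * Lw := by ring
      _ ≤ K' * (((m ^ e : ℕ) + 1 : ℝ) * (((2 * m) ^ (2 * e) : ℕ) : ℝ) ^ 47) ^ k *
          (X : ℝ) ^ 5 := hL'
      _ ≤ (c / 4 * 2 ^ (m ^ e)) * (X : ℝ) ^ 5 :=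
          mul_le_mul_of_nonneg_right (hm₁ m hm1) (by positivity)
      _ = 2 ^ (m ^ e) * (c / 4 * (X : ℝ) ^ 5) := by ring
  have hPG : c / 2 * (X : ℝ) ^ 5 ≤ P * G := by
    have : (P : ℝ) * F ≤ P * Bd + P * Lw + P * G := by
      rw [← mul_add, ← mul_add]
      exact mul_le_mul_of_nonneg_left hd' hP0.le
    linarith
  calc c / (2 * P) * (X : ℝ) ^ 5 = c / 2 * (X : ℝ) ^ 5 / P := by
        field_simp
    _ ≤ P * G / P := by gcongr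
    _ = G := by field_simp

/-- All pairs of height at most `X`. -/
def Cv (X : ℕ) (a b : ℤ) : Prop := 4 * a ^ 3 + 27 * b ^ 2 ≠ 0 ∧ |a| ^ 3 ≤ X ∧ b ^ 2 ≤ X

theorem cv_card {X Y : ℕ} (h : X < 27 * Y ^ 6) : {p : ℤ × ℤ | Cv X p.1 p.2}.Finite ∧
    {p : ℤ × ℤ | Cv X p.1 p.2}.ncard ≤ 91 * Y ^ 5 := by
  have hY : 1 ≤ Y := by
    rcases Nat.eq_zero_or_pos Y with rfl | h0
    · simp at h
    · exact h0
  have hsub : {p : ℤ × ℤ | Cv X p.1 p.2} ⊆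
      ((Finset.Icc (-(3 * (Y : ℤ) ^ 2)) (3 * (Y : ℤ) ^ 2) ×ˢ
        Finset.Icc (-(6 * (Y : ℤ) ^ 3)) (6 * (Y : ℤ) ^ 3) : Finset (ℤ × ℤ)) : Set (ℤ × ℤ)) := by
    rintro ⟨a, b⟩ ⟨_, h1, h2⟩
    simp only at h1 h2
    have hX : (X : ℤ) < 27 * (Y : ℤ) ^ 6 := by exact_mod_cast h
    have ha : |a| ≤ 3 * (Y : ℤ) ^ 2 := by
      by_contra hcon
      push Not at hcon
      have h3 : (3 * (Y : ℤ) ^ 2) ^ 3 ≤ |a| ^ 3 := pow_le_pow_left₀ (by positivity) hcon.le 3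
      have e1 : (3 * (Y : ℤ) ^ 2) ^ 3 = 27 * (Y : ℤ) ^ 6 := by ring
      rw [e1] at h3
      linarith
    have hb : |b| ≤ 6 * (Y : ℤ) ^ 3 := by
      by_contra hcon
      push Not at hcon
      have h3 : (6 * (Y : ℤ) ^ 3) ^ 2 ≤ |b| ^ 2 := pow_le_pow_left₀ (by positivity) hcon.le 2
      have e1 : (6 * (Y : ℤ) ^ 3) ^ 2 = 36 * (Y : ℤ) ^ 6 := by ring
      rw [e1, sq_abs] at h3
      have h4 : (0 : ℤ) ≤ (Y : ℤ) ^ 6 := by positivity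
      linarith
    rw [Finset.mem_coe, Finset.mem_product, Finset.mem_Icc, Finset.mem_Icc]
    exact ⟨abs_le.1 ha, abs_le.1 hb⟩
  refine ⟨(Finset.finite_toSet _).subset hsub, ?_⟩
  refine (Set.ncard_le_ncard hsub (Finset.finite_toSet _)).trans ?_
  rw [Set.ncard_coe_finset, Finset.card_product, Int.card_Icc, Int.card_Icc]
  have e1 : (3 * (Y : ℤ) ^ 2 + 1 - -(3 * (Y : ℤ) ^ 2)).toNat = 6 * Y ^ 2 + 1 := by
    have : (3 * (Y : ℤ) ^ 2 + 1 - -(3 * (Y : ℤ) ^ 2)) = ((6 * Y ^ 2 + 1 : ℕ) : ℤ) := by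
      push_cast
      ring
    rw [this, Int.toNat_natCast]
  have e2 : (6 * (Y : ℤ) ^ 3 + 1 - -(6 * (Y : ℤ) ^ 3)).toNat = 12 * Y ^ 3 + 1 := by
    have : (6 * (Y : ℤ) ^ 3 + 1 - -(6 * (Y : ℤ) ^ 3)) = ((12 * Y ^ 3 + 1 : ℕ) : ℤ) := by
      push_cast
      ring
    rw [this, Int.toNat_natCast]
  rw [e1, e2]
  have h2 : 1 ≤ Y ^ 2 := Nat.one_le_pow _ _ hY
  have h3 : 1 ≤ Y ^ 3 := Nat.one_le_pow _ _ hY
  calc (6 * Y ^ 2 + 1) * (12 * Y ^ 3 + 1) ≤ (6 * Y ^ 2 + Y ^ 2) * (12 * Y ^ 3 + Y ^ 3) := by gcongr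
    _ = 91 * Y ^ 5 := by ring

/-- From a lower bound of order `X ^ 5` to a positive proportion of all pairs. -/
theorem cnt_all (good : ℤ × ℤ → Prop) (P X₀ : ℕ) (c : ℝ) (hc : 0 < c) (hP : 1 ≤ P)
    (h : ∀ X : ℕ, X₀ ≤ X → ∀ H : ℕ, 27 * (X * P) ^ 6 ≤ H →
      c * (X : ℝ) ^ 5 ≤ ({p : ℤ × ℤ | Crv H p.1 p.2 ∧ good p}.ncard : ℝ)) :
    ∃ c' : ℝ, 0 < c' ∧ ∃ H₀ : ℕ, ∀ H ≥ H₀, {p : ℤ × ℤ | Cv H p.1 p.2}.Finite ∧
      c' * ({p : ℤ × ℤ | Cv H p.1 p.2}.ncard : ℝ) ≤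
        ({p : ℤ × ℤ | Cv H p.1 p.2 ∧
          (∀ q : ℕ, q.Prime → ¬ ((q : ℤ) ^ 4 ∣ p.1 ∧ (q : ℤ) ^ 6 ∣ p.2)) ∧ good p}.ncard : ℝ) := by
  refine ⟨c / (2912 * P ^ 5), by positivity, 27 * ((X₀ + 1) * P) ^ 6, fun H hH => ?_⟩
  -- the largest `X`
  have hex : ∃ X : ℕ, 27 * ((X + 1) * P) ^ 6 ≤ H ∧ H < 27 * ((X + 1 + 1) * P) ^ 6 ∧ X₀ ≤ X := by
    have h0 : 27 * ((X₀ + 1) * P) ^ 6 ≤ H := hH
    let f : ℕ → ℕ := fun X => 27 * ((X + 1) * P) ^ 6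
    have hf : ∀ X, X ≤ f X := fun X => by
      calc X ≤ (X + 1) * P := by nlinarith
        _ ≤ ((X + 1) * P) ^ 6 := Nat.le_self_pow (by norm_num) _
        _ ≤ 27 * ((X + 1) * P) ^ 6 := by omega
    have hb : ∃ n, H < f n := ⟨H + 1, lt_of_lt_of_le (Nat.lt_succ_self H) (hf _)⟩
    let n := Nat.find hb
    have hn : H < f n := Nat.find_spec hb
    have hmono : Monotone f := by
      intro x y hxy
      exact Nat.mul_le_mul_left _ (Nat.pow_le_pow_left (Nat.mul_le_mul_right _ (by omega)) 6)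
    have hXn : X₀ < n := by
      by_contra hcon
      push Not at hcon
      exact absurd (lt_of_lt_of_le hn (hmono hcon)) (not_lt.2 h0)
    refine ⟨n - 1, ?_, ?_, by omega⟩
    · have := Nat.find_min hb (m := n - 1) (by omega)
      exact not_lt.1 this
    · have e1 : n - 1 + 1 = n := by omega
      rw [e1]
      exact hn
  obtain ⟨X, h1, h2, h3⟩ := hex
  obtain ⟨hfin, hcard⟩ := cv_card h2
  refine ⟨hfin, ?_⟩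
  have hsub : {p : ℤ × ℤ | Crv H p.1 p.2 ∧ good p} ⊆ {p : ℤ × ℤ | Cv H p.1 p.2 ∧
      (∀ q : ℕ, q.Prime → ¬ ((q : ℤ) ^ 4 ∣ p.1 ∧ (q : ℤ) ^ 6 ∣ p.2)) ∧ good p} := by
    rintro p ⟨hp, hg⟩
    refine ⟨⟨hp.disc, ?_, ?_⟩, hp.min, hg⟩
    · have := hp.hA
      have h0 : 0 ≤ |p.1| ^ 3 := by positivity
      linarith
    · have := hp.hB
      have h0 : 0 ≤ p.2 ^ 2 := by positivity
      linarith
  have hfin' : {p : ℤ × ℤ | Cv H p.1 p.2 ∧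
      (∀ q : ℕ, q.Prime → ¬ ((q : ℤ) ^ 4 ∣ p.1 ∧ (q : ℤ) ^ 6 ∣ p.2)) ∧ good p}.Finite :=
    hfin.subset fun p hp => hp.1
  have h4 := h (X + 1) (by omega) H h1
  have h5 : (({p : ℤ × ℤ | Crv H p.1 p.2 ∧ good p}.ncard : ℕ) : ℝ) ≤
      ({p : ℤ × ℤ | Cv H p.1 p.2 ∧
      (∀ q : ℕ, q.Prime → ¬ ((q : ℤ) ^ 4 ∣ p.1 ∧ (q : ℤ) ^ 6 ∣ p.2)) ∧ good p}.ncard : ℝ) := by
    exact_mod_cast Set.ncard_le_ncard hsub hfin'
  refine le_trans ?_ (h4.trans h5)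
  have h6 : ({p : ℤ × ℤ | Cv H p.1 p.2}.ncard : ℝ) ≤ 91 * (((X + 1 + 1) * P : ℕ) : ℝ) ^ 5 := by
    exact_mod_cast hcard
  have h7 : (((X + 1 + 1) * P : ℕ) : ℝ) ≤ 2 * (((X + 1 : ℕ) : ℝ) * P) := by
    have : (X + 1 + 1) * P ≤ 2 * ((X + 1) * P) := by nlinarith
    exact_mod_cast this
  have hP0 : (0 : ℝ) < P := by exact_mod_cast hP
  calc c / (2912 * P ^ 5) * ({p : ℤ × ℤ | Cv H p.1 p.2}.ncard : ℝ)
      ≤ c / (2912 * P ^ 5) * (91 * (2 * (((X + 1 : ℕ) : ℝ) * P)) ^ 5) := by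
        refine mul_le_mul_of_nonneg_left (h6.trans ?_) (by positivity)
        gcongr
    _ = c * ((X + 1 : ℕ) : ℝ) ^ 5 := by
        field_simp
        ring

end Pool.Agent.H458.AR
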