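import Pool.Agent.H458.AR.Fld
import Pool.Agent.H458.AR.Cmb

/-!
# Project AR (helper458): the Selmer groups of the twists of one curve

After `Pool.Agent.N922.PQ.core2` (helper922).
-/

set_option autoImplicit false
set_option linter.all false

open Polynomial IsDedekindDomain NumberField
open scoped Classical

namespace Pool.Agent.H458.AR

open Pool.Agent.N922.PQ
open Pool.Agent.N874.PP (Ev Sq1 U0)

theorem sq1_one {O L : Type} [CommRing O] [IsDedekindDomain O] [Field L] [Algebra O L]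
    [IsFractionRing O L] (𝔓 : HeightOneSpectrum O) (y : L) (hy : y ≠ 0) : Sq1 𝔓 (y ^ 2) := by
  refine ⟨y, ?_⟩
  rw [sub_self, map_zero]
  exact zero_lt_iff.2 ((Valuation.ne_zero_iff _).2 (pow_ne_zero _ hy))

theorem ev_sq {O L : Type} [CommRing O] [IsDedekindDomain O] [Field L] [Algebra O L]
    [IsFractionRing O L] (𝔓 : HeightOneSpectrum O) (y : L) : Ev 𝔓 (y ^ 2) :=
  ⟨y, map_pow _ _ _⟩

theorem core {L : Type} (O : Type) [Field L] [NumberField L] [CommRing O]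
    [IsDedekindDomain O] [Algebra O L] [IsFractionRing O L] [IsIntegralClosure O ℤ L]
    {a b : ℤ} {θ : L} {X κ k r : ℕ} {S T : Finset ℤ} {s A B : ℤ → ℤ} (hCLS : S_CLS) (hEXQ : S_EXQ)
    (hNS : S_NS) (hREC : S_REC) (hPLM : S_PLM) (hRAM : S_RAM)
    (hSD : S_SD) (hTTV : S_TTV) (hLB : ∀ (L : Type) [Field L] [NumberField L] (a b : ℤ) (θ : L)
      (X : ℕ) (S T : Finset ℤ) (s A B : ℤ → ℤ), IsCub a b θ → GoodS S s → Fam X S s T A B a b →
      ∀ (α : L) (e : Fin 3 → L), α ≠ 0 → IsSquare (Algebra.norm ℚ α) → ¬ IsSquare α → SD e α →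
      (∀ Q ∈ S, TTV Q θ e α) → LBad κ X S s a b)
    (hLBR : S_LBR) (hVDM : S_VDM)
    (hCMB : ∀ Λ : AddSubgroup (S → ZMod 2 × ZMod 2), (∀ l ∈ Λ, ∑ i, (l i).1 * (l i).2 = 0) →
      2 ^ Fintype.card S ≤ Nat.card Λ → (∀ l ∈ Λ, (∃ i, (l i).1 = 1 ∧ (l i).2 = 1) →
        k < (Finset.univ.filter fun i => l i ≠ 0).card) →
      ∀ j ≤ r, ∃ J : Set S, Nat.card (LJ Λ J) = 2 ^ j)
    (hc : IsCub a b θ) (hS : GoodS S s) (hT : GoodT T A B)
    (hF : Fam X S s T A B a b) (h4 : (4 : ℤ) ∣ a - b) (hnb : ¬ LBad κ X S s a b)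
    (hlow : ¬ LowB X S s k (a, b)) :
    ∀ j ≤ r, ∃ J ⊆ S, ∃ g : Fin (2 ^ j) → L, (∀ i, SJ (O := O) a b θ J (g i)) ∧
      (∀ i i', IsSquare (g i * g i') → i = i') ∧
      ∀ α : L, SJ (O := O) a b θ J α → ∃ i, IsSquare (α * g i) := by
  have hd2 : ∀ Q ∈ S, ¬ Q ∣ 2 := fun Q hQ => not_dvd_two (hS Q hQ).2.1 (hS Q hQ).1.1 (hS Q hQ).1.2
  have hnt2 : ∀ z : ℤ, ¬ (2 : ℤ) ∣ z ^ 3 + a * z + b := fam_nt hT hF hT.1
  have hex : ∀ Q ∈ S, ∃ 𝔓₁ 𝔮 : HeightOneSpectrum O, Ov Q 𝔓₁ ∧ Ov Q 𝔮 ∧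
      𝔓₁.valuation L θ < 1 ∧ 𝔮.valuation L θ = 1 ∧ ¬ Ev 𝔮 ((Q : L) * θ) ∧
      ∀ 𝔓 : HeightOneSpectrum O, Ov Q 𝔓 → 𝔓 = 𝔓₁ ∨ 𝔓 = 𝔮 := fun Q hQ =>
    hEXQ L O a b θ hc hF.sq Q (hS Q hQ).1.2 (hF.rb Q hQ) (fam_ns hS hF hQ)
  haveI hcO : CharZero O := by
    have hinj := IsIntegralClosure.algebraMap_injective O ℤ L
    exact charZero_of_injective_algebraMap (R := O) (A := L) |> fun _ =>
      ⟨fun m n h => by
        have h2 := congrArg (algebraMap O L) h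
        simpa using h2⟩
  haveI hne : Nonempty (HeightOneSpectrum O) := by
    haveI : Algebra.IsIntegral ℤ O := IsIntegralClosure.isIntegral_algebra ℤ L
    have hinj : Function.Injective (algebraMap ℤ O) := by
      intro m n h
      simpa using h
    have hnf : ¬ IsField O := fun h => Int.not_isField
      (isField_of_isIntegral_of_isField hinj h)
    obtain ⟨m, hm⟩ := Ideal.exists_maximal O
    exact ⟨⟨m, hm.isPrime, Ring.ne_bot_of_isMaximal_of_not_isField hm hnf⟩⟩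
  let 𝔭 : ℤ → HeightOneSpectrum O := fun Q =>
    if hQ : Q ∈ S then (hex Q hQ).choose else Classical.arbitrary _
  let 𝔮 : ℤ → HeightOneSpectrum O := fun Q =>
    if hQ : Q ∈ S then (hex Q hQ).choose_spec.choose else Classical.arbitrary _
  have hpq : ∀ Q ∈ S, Ov Q (𝔭 Q) ∧ Ov Q (𝔮 Q) ∧ (𝔭 Q).valuation L θ < 1 ∧
      (𝔮 Q).valuation L θ = 1 ∧ ¬ Ev (𝔮 Q) ((Q : L) * θ) ∧
      ∀ 𝔓 : HeightOneSpectrum O, Ov Q 𝔓 → 𝔓 = 𝔭 Q ∨ 𝔓 = 𝔮 Q := by
    intro Q hQ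
    have h := (hex Q hQ).choose_spec.choose_spec
    simp only [𝔭, 𝔮, dif_pos hQ]
    exact h
  let ψ : L → (S → ZMod 2 × ZMod 2) := fun α Q => cl (𝔮 Q) ((Q : ℤ) * θ) α
  have hϖ : ∀ Q ∈ S, (Q : L) * θ ≠ 0 := by
    intro Q hQ h0
    exact (hpq Q hQ).2.2.2.2.1 (by rw [h0]; exact ⟨0, by simp⟩)
  have hψ : ∀ α β : L, α ≠ 0 → β ≠ 0 → ψ (α * β) = ψ α + ψ β := by
    intro α β hα hβ
    funext Q
    have h := hCLS L O Q (𝔮 Q) ((Q : ℤ) * θ) (hS Q Q.2).1.2 (hd2 Q Q.2) (hpq Q Q.2).2.1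
      (hϖ Q Q.2) (hpq Q Q.2).2.2.2.2.1 α β hα hβ
    exact Prod.ext (cl_add_aux h.1) (cl_add_aux h.2)
  have hself : ∀ l : S → ZMod 2 × ZMod 2, l + l = 0 := by
    intro l
    funext Q
    exact Prod.ext (CharTwo.add_self_eq_zero _) (CharTwo.add_self_eq_zero _)
  have hEvmul : ∀ (𝔓 : HeightOneSpectrum O) (x y : L), Ev 𝔓 x → Ev 𝔓 y → Ev 𝔓 (x * y) := by
    rintro 𝔓 x y ⟨u, hu⟩ ⟨v, hv⟩
    exact ⟨u * v, by rw [map_mul, map_mul, hu, hv, mul_pow]⟩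
  have hMmul : ∀ α β, InV a b θ S 𝔮 α → InV a b θ S 𝔮 β → InV a b θ S 𝔮 (α * β) := by
    rintro α β ⟨h1, h2, h4, h3⟩ ⟨h1', h2', h4', h3'⟩
    refine ⟨mul_ne_zero h1 h1', ?_, loc2_mul hPLM hc hnt2 h4 h4',
      fun 𝔓 h𝔓 => hEvmul 𝔓 _ _ (h3 𝔓 h𝔓) (h3' 𝔓 h𝔓)⟩
    rw [map_mul]
    exact h2.mul h2'
  have hM1 : InV a b θ S 𝔮 (1 : L) := ⟨one_ne_zero, by rw [map_one]; exact IsSquare.one, loc2_one hc,
    fun 𝔓 _ => ⟨1, by rw [map_one, one_pow]⟩⟩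
  let Λ : AddSubgroup (S → ZMod 2 × ZMod 2) :=
    { carrier := {l | ∃ α, InV a b θ S 𝔮 α ∧ ψ α = l}
      add_mem' := by
        rintro _ _ ⟨α, hα, rfl⟩ ⟨β, hβ, rfl⟩
        exact ⟨α * β, hMmul α β hα hβ, hψ α β hα.1 hβ.1⟩
      zero_mem' := by
        refine ⟨1, hM1, ?_⟩
        have h := hψ 1 1 one_ne_zero one_ne_zero
        rw [mul_one] at h
        exact left_eq_add.1 h
      neg_mem' := by
        rintro _ ⟨α, hα, rfl⟩
        refine ⟨α, hα, ?_⟩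
        rw [eq_neg_iff_add_eq_zero]
        exact hself _ }
  have hiso : ∀ l ∈ Λ, ∑ Q : S, (l Q).1 * (l Q).2 = 0 := by
    rintro _ ⟨α, hα, rfl⟩
    have h := hREC L O a b θ X S T s A B hc hS hT hF 𝔮
      (fun Q hQ => ⟨(hpq Q hQ).2.1, (hpq Q hQ).2.2.2.1⟩) α hα.1 hα.2 hα.3 hα.4
    have e1 : ∑ Q : S, (ψ α Q).1 * (ψ α Q).2 = ∑ Q ∈ S,
        (if ¬ Ev (𝔮 Q) α ∧ ¬ Sq1 (𝔮 Q) (α * ((Q : L) * θ)) then (1 : ZMod 2) else 0) := by
      rw [← Finset.sum_coe_sort S]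
      refine Finset.sum_congr rfl fun Q _ => ?_
      simp only [ψ, cl]
      by_cases he : Ev (𝔮 Q) α
      · rw [if_pos he, zero_mul, if_neg (fun h => h.1 he)]
      · by_cases hs : Sq1 (𝔮 Q) (α * (((Q : ℤ) : L) * θ))
        · have hu : U0 (𝔮 Q) (((Q : ℤ) : L) * θ) α := ⟨fun h => absurd h he, fun _ => hs⟩
          rw [if_neg he, if_pos hu, mul_zero, if_neg (fun h => h.2 hs)]
        · have hu : ¬ U0 (𝔮 Q) (((Q : ℤ) : L) * θ) α := fun h => hs (h.2 he)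
          rw [if_neg he, if_neg hu, mul_one, if_pos ⟨he, hs⟩]
    rw [e1, Finset.sum_ite, Finset.sum_const_zero, add_zero, Finset.sum_const, nsmul_eq_mul,
      mul_one]
    exact (ZMod.natCast_eq_zero_iff_even).2 h
  -- values of `ψ`
  have hv1 : ∀ (α : L) (Q : S), (ψ α Q).1 = 0 ↔ Ev (𝔮 Q) α := by
    intro α Q
    simp only [ψ, cl]
    by_cases h : Ev (𝔮 Q) α
    · simp [h]
    · simp [h]
  have hv2 : ∀ (α : L) (Q : S), (ψ α Q).2 = 0 ↔ U0 (𝔮 Q) ((Q : ℤ) * θ) α := by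
    intro α Q
    simp only [ψ, cl]
    by_cases h : U0 (𝔮 Q) (((Q : ℤ) : L) * θ) α
    · simp [h]
    · simp [h]
  -- `𝔭 Q` is none of the `𝔮 Q'`
  have hpne : ∀ Q ∈ S, ∀ Q' ∈ S, 𝔭 Q ≠ 𝔮 Q' := by
    intro Q hQ Q' hQ' he
    have h1 : Ov Q' (𝔭 Q) := by rw [he]; exact (hpq Q' hQ').2.1
    have h2 : Q' = Q := below_unique (hS Q' hQ').1 (hS Q hQ).1 h1 (hpq Q hQ).1
    subst h2
    have h5 := (hpq Q' hQ).2.2.1
    rw [he, (hpq Q' hQ).2.2.2.1] at h5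
    exact lt_irrefl _ h5
  have hEvp : ∀ α, InV a b θ S 𝔮 α → ∀ Q ∈ S, Ev (𝔭 Q) α := fun α hα Q hQ =>
    hα.ev _ fun Q' hQ' => hpne Q hQ Q' hQ'
  -- local squares
  have hloc : ∀ α, InV a b θ S 𝔮 α → ∀ Q : S, ψ α Q = 0 → ∀ 𝔓 : HeightOneSpectrum O, Ov Q 𝔓 →
      Sq1 𝔓 α := by
    intro α hα Q h0
    have h1 : Ev (𝔮 Q) α := (hv1 α Q).1 (by rw [h0]; rfl)
    have h2 : U0 (𝔮 Q) ((Q : ℤ) * θ) α := (hv2 α Q).1 (by rw [h0]; rfl)
    refine hNS L O a b θ hc hF.sq Q (hS Q Q.2).1.2 (hF.rb Q Q.2) (fam_ns hS hF Q.2) α hα.ne hα.nm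
      (fun 𝔓 h𝔓 hv => ?_) (fun 𝔓 h𝔓 hv => ?_)
    · rcases (hpq Q Q.2).2.2.2.2.2 𝔓 h𝔓 with rfl | rfl
      · exact hEvp α hα Q Q.2
      · exact h1
    · rcases (hpq Q Q.2).2.2.2.2.2 𝔓 h𝔓 with rfl | rfl
      · exact absurd hv (hpq Q Q.2).2.2.1.ne
      · exact h2.1 h1
  -- the kernel
  have hker : ∀ α, InV a b θ S 𝔮 α → ψ α = 0 → IsSquare α := by
    intro α hα hz
    have hEv : ∀ 𝔓 : HeightOneSpectrum O, Ev 𝔓 α := by
      intro 𝔓
      by_cases h : ∀ Q ∈ S, 𝔓 ≠ 𝔮 Q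
      · exact hα.ev 𝔓 h
      · push Not at h
        obtain ⟨Q, hQ, rfl⟩ := h
        exact (hv1 α ⟨Q, hQ⟩).1 (by rw [hz]; rfl)
    have hSq : ∀ Q ∈ S, ∀ 𝔓 : HeightOneSpectrum O, Ov Q 𝔓 → Sq1 𝔓 α := fun Q hQ =>
      hloc α hα ⟨Q, hQ⟩ (by rw [hz]; rfl)
    by_contra hns
    obtain ⟨e, he⟩ := hSD L O hc.rank α hα.ne hEv
    exact hnb (hLB L a b θ X S T s A B hc hS hF α e hα.ne hα.nm hns he fun Q hQ =>
      hTTV L O a b θ hc hF.sq α e hα.ne he Q (hS Q hQ).1.2 (hF.rb Q hQ) (fam_ns hS hF hQ)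
        (hSq Q hQ))
  have hadd : ∀ l l' : S → ZMod 2 × ZMod 2, l + l' = 0 → l = l' := by
    intro l l' h
    have h1 := hself l'
    have h2 : l + l' = l' + l' := by rw [h, h1]
    exact add_right_cancel h2
  have hsq1 : ∀ α β, InV a b θ S 𝔮 α → InV a b θ S 𝔮 β → IsSquare (α * β) → ψ α = ψ β := by
    rintro α β hα hβ ⟨y, hy⟩
    apply hadd
    have hy0 : y ≠ 0 := by
      rintro rfl
      rw [mul_zero] at hy
      exact mul_ne_zero hα.ne hβ.ne hy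
    rw [← hψ α β hα.ne hβ.ne, hy, hψ y y hy0 hy0]
    exact hself _
  have hsq2 : ∀ α β, InV a b θ S 𝔮 α → InV a b θ S 𝔮 β → ψ α = ψ β → IsSquare (α * β) := by
    intro α β hα hβ h
    apply hker _ (hMmul α β hα hβ)
    rw [hψ α β hα.ne hβ.ne, h]
    exact hself _
  -- the order of `Λ`
  have hcard : 2 ^ Fintype.card S ≤ Nat.card Λ := by
    obtain ⟨g, hg, hg'⟩ := hVDM L O a b θ X S T s A B hc hS hT hF h4 𝔮
      fun Q hQ => ⟨(hpq Q hQ).2.1, (hpq Q hQ).2.2.2.1⟩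
    have hinj : Function.Injective fun c : S → ZMod 2 =>
        (⟨ψ (g c), g c, hg c, rfl⟩ : Λ) := by
      intro c c' h
      apply hg'
      apply hsq2 _ _ (hg c) (hg c')
      exact congrArg Subtype.val h
    have h1 := Nat.card_le_card_of_injective _ hinj
    have h2 : Nat.card (S → ZMod 2) = 2 ^ Fintype.card S := by
      rw [Nat.card_eq_fintype_card, Fintype.card_fun, ZMod.card]
    rwa [h2] at h1
  -- the weights
  have hwt : ∀ l ∈ Λ, (∃ i, (l i).1 = 1 ∧ (l i).2 = 1) →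
      k < (Finset.univ.filter fun i => l i ≠ 0).card := by
    rintro _ ⟨α, hα, rfl⟩ ⟨Q₀, h1, h2⟩
    by_contra hk
    push Not at hk
    apply hlow
    refine ⟨(Finset.univ.filter fun i : S => (ψ α i).1 ≠ 0).map (Function.Embedding.subtype _),
      (Finset.univ.filter fun i : S => ψ α i ≠ 0).map (Function.Embedding.subtype _), ?_, ?_, ?_, ?_⟩
    · apply Finset.map_subset_map.2
      intro i hi
      rw [Finset.mem_filter] at hi ⊢
      refine ⟨hi.1, fun h => hi.2 ?_⟩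
      rw [h]
      rfl
    · intro x hx
      rw [Finset.mem_map] at hx
      obtain ⟨i, _, rfl⟩ := hx
      exact i.2
    · rw [Finset.card_map]
      exact hk
    · refine hLBR L O a b θ X S T s A B hc hS hF _ _ ?_ ?_ α hα.ne hα.nm ?_ ?_ ?_
      · apply Finset.map_subset_map.2
        intro i hi
        rw [Finset.mem_filter] at hi ⊢
        refine ⟨hi.1, fun h => hi.2 ?_⟩
        rw [h]
        rfl
      · intro x hx
        rw [Finset.mem_map] at hx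
        obtain ⟨i, _, rfl⟩ := hx
        exact i.2
      · intro 𝔓 h𝔓
        by_cases h : ∀ Q ∈ S, 𝔓 ≠ 𝔮 Q
        · exact absurd (hα.ev 𝔓 h) h𝔓
        · push Not at h
          obtain ⟨Q, hQ, rfl⟩ := h
          refine ⟨Q, ?_, (hpq Q hQ).2.1⟩
          rw [Finset.mem_map]
          refine ⟨⟨Q, hQ⟩, ?_, rfl⟩
          rw [Finset.mem_filter]
          exact ⟨Finset.mem_univ _, fun h0 => h𝔓 ((hv1 α ⟨Q, hQ⟩).1 h0)⟩
      · intro Q hQ 𝔓 h𝔓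
        rw [Finset.mem_sdiff] at hQ
        refine hloc α hα ⟨Q, hQ.1⟩ ?_ 𝔓 h𝔓
        by_contra h0
        apply hQ.2
        rw [Finset.mem_map]
        exact ⟨⟨Q, hQ.1⟩, Finset.mem_filter.2 ⟨Finset.mem_univ _, h0⟩, rfl⟩
      · intro x hx h0
        obtain ⟨Q, hQ⟩ := Q₀
        have hQpr := (hS Q hQ).1
        have hpQ : ((Q.natAbs : ℕ) : ℤ) = Q := Int.natAbs_of_nonneg hQpr.1.le
        haveI hfp : Fact (Q.natAbs).Prime := ⟨Int.prime_iff_natAbs_prime.1 hQpr.2⟩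
        have hE : ¬ Ev (𝔮 Q) α := fun h => by
          have := (hv1 α ⟨Q, hQ⟩).2 h
          rw [this] at h1
          exact zero_ne_one h1
        have hU : ¬ U0 (𝔮 Q) ((Q : ℤ) * θ) α := fun h => by
          have := (hv2 α ⟨Q, hQ⟩).2 h
          rw [this] at h2
          exact zero_ne_one h2
        have hcast : ((Q.natAbs : ℕ) : L) = ((Q : ℤ) : L) := by
          have := congrArg (Int.cast : ℤ → L) hpQ
          rw [← this]
          simp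
        have hp2 : Q.natAbs ≠ 2 := by
          intro h
          have h8 := (hS Q hQ).2.1
          rw [← hpQ, h] at h8
          norm_num at h8
        have hiff := hRAM L O a b θ hc hF.sq Q.natAbs hp2 (by rw [hpQ]; exact hF.rb Q hQ)
          (by rw [hpQ]; exact fam_ns hS hF hQ) (𝔭 Q) (𝔮 Q) (by rw [hpQ]; exact (hpq Q hQ).1)
          (by rw [hpQ]; exact (hpq Q hQ).2.1) (hpq Q hQ).2.2.1 (hpq Q hQ).2.2.2.1 α hα.ne
          (hEvp α hα Q hQ) hE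
        rw [hcast] at hiff
        have hns : ¬ IsoAt hc Q.natAbs α := fun h => hU ⟨fun h' => absurd h' hE,
          fun _ => hiff.1 h⟩
        apply hns
        refine ⟨fun i => ((hc.co i x : ℚ) : ℚ_[Q.natAbs]), ?_, ?_⟩
        · intro h
          apply hx
          have h3 : ∀ i, hc.co i x = 0 := by
            intro i
            have := congrFun h i
            simp only [Pi.zero_apply] at this
            exact_mod_cast this
          have h4 := hc.basis.sum_repr x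
          rw [← h4]
          apply Finset.sum_eq_zero
          intro i _
          have h5 : hc.basis.repr x i = 0 := h3 i
          rw [h5, zero_smul]
        · have h3 : x = ∑ i : Fin 3, (hc.co i x : ℚ) • θ ^ (i : ℕ) := by
            have h4 := hc.basis.sum_repr x
            rw [Fin.sum_univ_three] at h4 ⊢
            rw [hc.basis_apply, hc.basis_apply, hc.basis_apply] at h4
            refine h4.symm.trans ?_
            simp [IsCub.co, vec, Module.Basis.coord_apply]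
          have h5 : hc.co 2 (x ^ 2 / α) = ∑ i : Fin 3, ∑ j : Fin 3,
              hc.co 2 (θ ^ (i : ℕ) * θ ^ (j : ℕ) / α) * hc.co i x * hc.co j x := by
            have h6 : x ^ 2 / α = ∑ i : Fin 3, ∑ j : Fin 3,
                (hc.co i x * hc.co j x) • (θ ^ (i : ℕ) * θ ^ (j : ℕ) / α) := by
              conv_lhs => rw [h3]
              rw [sq, Finset.sum_mul_sum, Finset.sum_div]
              refine Finset.sum_congr rfl fun i _ => ?_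
              rw [Finset.sum_div]
              refine Finset.sum_congr rfl fun j _ => ?_
              rw [smul_mul_smul_comm, div_eq_mul_inv, div_eq_mul_inv, smul_mul_assoc]
            rw [h6, map_sum]
            refine Finset.sum_congr rfl fun i _ => ?_
            rw [map_sum]
            refine Finset.sum_congr rfl fun j _ => ?_
            rw [map_smul, smul_eq_mul]
            ring
          rw [h0] at h5
          have h7 := congrArg (Rat.cast : ℚ → ℚ_[Q.natAbs]) h5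
          push_cast at h7
          exact h7.symm
  intro j hj
  obtain ⟨J, hJ⟩ := hCMB Λ hiso hcard hwt j hj
  let J' : Finset ℤ := S.filter fun Q => ∃ h : Q ∈ S, (⟨Q, h⟩ : S) ∈ J
  have hJ'S : J' ⊆ S := Finset.filter_subset _ _
  have hSJ1 : ∀ α, SJ (O := O) a b θ J' α → InV a b θ S 𝔮 α ∧ ψ α ∈ LJ Λ J := by
    intro α hα
    have hM : InV a b θ S 𝔮 α := by
      refine ⟨hα.ne, hα.nm, hα.l2, fun 𝔓 h𝔓 => ?_⟩
      by_cases hex : ∃ Q ∈ J', Ov Q 𝔓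
      · obtain ⟨Q, hQJ, hQ𝔓⟩ := hex
        rcases (hpq Q (hJ'S hQJ)).2.2.2.2.2 𝔓 hQ𝔓 with rfl | rfl
        · exact hα.e1 Q hQJ _ hQ𝔓 (hpq Q (hJ'S hQJ)).2.2.1
        · exact absurd rfl (h𝔓 Q (hJ'S hQJ))
      · exact hα.ev 𝔓 fun Q hQJ hQ𝔓 => hex ⟨Q, hQJ, hQ𝔓⟩
    refine ⟨hM, ⟨α, hM, rfl⟩, fun Q hQ => ?_, fun Q hQ => ?_⟩
    · have hQJ : (Q : ℤ) ∈ J' := Finset.mem_filter.2 ⟨Q.2, Q.2, hQ⟩
      exact (hv2 α Q).2 (hα.u0 Q hQJ _ (hpq Q Q.2).2.1 (hpq Q Q.2).2.2.2.1)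
    · have hQJ : (Q : ℤ) ∉ J' := fun h => hQ (Finset.mem_filter.1 h).2.2
      refine (hv1 α Q).2 (hα.ev (𝔮 Q) fun Q' hQ' hO => ?_)
      have hS' := hS Q' (hJ'S hQ')
      have : Q' = (Q : ℤ) := below_unique hS'.1 (hS Q Q.2).1 hO (hpq Q Q.2).2.1
      rw [this] at hQ'
      exact hQJ hQ'
  have hSJ2 : ∀ α, InV a b θ S 𝔮 α → ψ α ∈ LJ Λ J → SJ (O := O) a b θ J' α := by
    rintro α hα ⟨_, hl1, hl2⟩
    refine ⟨hα.ne, hα.nm, hα.l2, fun 𝔓 h𝔓 => ?_, fun Q hQ 𝔓 h𝔓 hv => ?_, fun Q hQ 𝔓 h𝔓 hv => ?_⟩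
    · by_cases h : ∀ Q ∈ S, 𝔓 ≠ 𝔮 Q
      · exact hα.ev 𝔓 h
      · push Not at h
        obtain ⟨Q, hQ, rfl⟩ := h
        refine (hv1 α ⟨Q, hQ⟩).1 (hl2 ⟨Q, hQ⟩ fun hJQ => ?_)
        exact h𝔓 Q (Finset.mem_filter.2 ⟨hQ, hQ, hJQ⟩) (hpq Q hQ).2.1
    · obtain ⟨hQS, _, hJQ⟩ := Finset.mem_filter.1 hQ
      rcases (hpq Q hQS).2.2.2.2.2 𝔓 h𝔓 with rfl | rfl
      · exact absurd hv (hpq Q hQS).2.2.1.ne
      · exact (hv2 α ⟨Q, hQS⟩).1 (hl1 ⟨Q, hQS⟩ hJQ)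
    · obtain ⟨hQS, _, hJQ⟩ := Finset.mem_filter.1 hQ
      rcases (hpq Q hQS).2.2.2.2.2 𝔓 h𝔓 with rfl | rfl
      · exact hEvp α hα Q hQS
      · exact absurd (hpq Q hQS).2.2.2.1 hv.ne
  haveI hfin : Finite (LJ Λ J) := Subtype.finite
  let e : LJ Λ J ≃ Fin (2 ^ j) := Finite.equivFinOfCardEq hJ
  have hch : ∀ l : LJ Λ J, ∃ α, InV a b θ S 𝔮 α ∧ ψ α = l.1 := fun l => l.2.1
  choose α₀ hα₀ hψ₀ using hch
  refine ⟨J', hJ'S, fun i => α₀ (e.symm i), fun i => ?_, fun i i' h => ?_, fun α hα => ?_⟩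
  · exact hSJ2 _ (hα₀ _) (by rw [hψ₀]; exact (e.symm i).2)
  · have h1 := hsq1 _ _ (hα₀ _) (hα₀ _) h
    rw [hψ₀, hψ₀] at h1
    exact e.symm.injective (Subtype.ext h1)
  · obtain ⟨hM, hl⟩ := hSJ1 α hα
    refine ⟨e ⟨ψ α, hl⟩, hsq2 _ _ hM (hα₀ _) ?_⟩
    rw [hψ₀, Equiv.symm_apply_apply]

end Pool.Agent.H458.AR
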