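import Pool.Agent.H458.AR.Fld
import Pool.Agent.H458.AR.FPTb

/-!
# Part FPT of project AR (helper458), helper294
-/

set_option autoImplicit false
set_option linter.all false

open Polynomial Finset Pool.Agent.H294.AR458

namespace Pool.Agent.H458.AR.F294

variable {p : ℕ} [Fact p.Prime]


/-- in a finite extension field an element is a square if its norm is -/
theorem isSquare_of_norm (hp2 : p ≠ 2) {f : (ZMod p)[X]} (hf : Irreducible f) (hm : f.Monic)
    (z : AdjoinRoot f) (hz : IsSquare (Algebra.norm (ZMod p) z)) : IsSquare z := by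
  haveI : Fact (Irreducible f) := ⟨hf⟩
  haveI : Module.Finite (ZMod p) (AdjoinRoot f) := hm.finite_adjoinRoot
  haveI : Finite (AdjoinRoot f) := Module.finite_of_finite (ZMod p)
  haveI : Fintype (AdjoinRoot f) := Fintype.ofFinite _
  by_cases h0 : z = 0
  · rw [h0]
    exact ⟨0, by ring⟩
  have hp0 : p.Prime := Fact.out
  have hodd : p % 2 = 1 := hp0.eq_two_or_odd.resolve_left hp2
  have hp3 : 3 ≤ p := by
    have := hp0.two_le
    omega
  have hN0 : Algebra.norm (ZMod p) z ≠ 0 := Algebra.norm_ne_zero_iff.2 h0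
  have hF : ringChar (ZMod p) ≠ 2 := by rwa [ZMod.ringChar_zmod_n]
  have hK : ringChar (AdjoinRoot f) ≠ 2 := by
    have : ringChar (AdjoinRoot f) = ringChar (ZMod p) := (Algebra.ringChar_eq (ZMod p) (AdjoinRoot f)).symm
    rw [this]
    exact hF
  have h1 := (FiniteField.isSquare_iff hF hN0).1 hz
  rw [FiniteField.isSquare_iff hK h0]
  have h2 := congrArg (algebraMap (ZMod p) (AdjoinRoot f)) h1
  rw [map_pow, FiniteField.algebraMap_norm_eq_pow, map_one, ← pow_mul, ZMod.card, Nat.card_zmod,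
    Nat.card_eq_fintype_card] at h2
  obtain ⟨n, hn⟩ : ∃ n : ℕ, Fintype.card (AdjoinRoot f) = p ^ n := by
    refine ⟨Module.finrank (ZMod p) (AdjoinRoot f), ?_⟩
    rw [Module.card_eq_pow_finrank (K := ZMod p), ZMod.card]
  obtain ⟨m, hm'⟩ : (p - 1) ∣ (p ^ n - 1) := by
    simpa using Nat.sub_dvd_pow_sub_pow p 1 n
  have hexp : (Fintype.card (AdjoinRoot f) - 1) / (p - 1) * (p / 2) = Fintype.card (AdjoinRoot f) / 2 := by
    rw [hn, hm', Nat.mul_div_cancel_left _ (by omega)]
    have h3 : p ^ n = (p - 1) * m + 1 := by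
      have : 1 ≤ p ^ n := Nat.one_le_pow _ _ (by omega)
      omega
    obtain ⟨k, hk⟩ : ∃ k, p = 2 * k + 1 := ⟨p / 2, by omega⟩
    have h4 : p / 2 = k := by omega
    have h5 : p - 1 = 2 * k := by omega
    rw [h4, h3, h5]
    have h6 : 2 * k * m + 1 = 2 * (m * k) + 1 := by ring
    rw [h6]
    omega
  rwa [hexp] at h2

/-- a square root modulo `f` from a square in the quotient -/
theorem dvd_of_isSquare {f h : (ZMod p)[X]} (hs : IsSquare (AdjoinRoot.mk f h)) :
    ∃ g : (ZMod p)[X], f ∣ h - g ^ 2 := by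
  obtain ⟨z, hz⟩ := hs
  obtain ⟨g, hg⟩ := AdjoinRoot.mk_surjective z
  refine ⟨g, ?_⟩
  rw [← AdjoinRoot.mk_eq_mk, map_pow, hg, hz, sq]

/-- three different zeros -/
theorem sq_three {e1 e2 e3 : ZMod p} (h12 : e1 ≠ e2) (h13 : e1 ≠ e3) (h23 : e2 ≠ e3)
    (u : (ZMod p)[X]) (hu1 : IsSquare (u.eval e1)) (hu2 : IsSquare (u.eval e2))
    (hu3 : IsSquare (u.eval e3)) :
    ∃ g : (ZMod p)[X], (X - C e1) * (X - C e2) * (X - C e3) ∣ u - g ^ 2 := by
  obtain ⟨s1, hs1⟩ := hu1
  obtain ⟨s2, hs2⟩ := hu2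
  obtain ⟨s3, hs3⟩ := hu3
  have d21 : e2 - e1 ≠ 0 := sub_ne_zero.2 h12.symm
  have d31 : e3 - e1 ≠ 0 := sub_ne_zero.2 h13.symm
  have d32 : e3 - e2 ≠ 0 := sub_ne_zero.2 h23.symm
  set k := (s2 - s1) / (e2 - e1) with hk
  have hk' : k * (e2 - e1) = s2 - s1 := by rw [hk]; field_simp
  set l := (s3 - s1 - k * (e3 - e1)) / ((e3 - e1) * (e3 - e2)) with hl
  have hl' : l * ((e3 - e1) * (e3 - e2)) = s3 - s1 - k * (e3 - e1) := by rw [hl]; field_simp
  refine ⟨C s1 + C k * (X - C e1) + C l * ((X - C e1) * (X - C e2)), ?_⟩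
  have hc12 : IsCoprime (X - C e1) (X - C e2) := isCoprime_X_sub_C_of_isUnit_sub (sub_ne_zero.2 h12).isUnit
  have hc13 : IsCoprime (X - C e1) (X - C e3) := isCoprime_X_sub_C_of_isUnit_sub (sub_ne_zero.2 h13).isUnit
  have hc23 : IsCoprime (X - C e2) (X - C e3) := isCoprime_X_sub_C_of_isUnit_sub (sub_ne_zero.2 h23).isUnit
  refine IsCoprime.mul_dvd (IsCoprime.mul_left hc13 hc23) (IsCoprime.mul_dvd hc12 ?_ ?_) ?_
  · rw [dvd_iff_isRoot, IsRoot]
    simp only [eval_sub, eval_add, eval_mul, eval_pow, eval_C, eval_X]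
    rw [hs1]
    ring
  · rw [dvd_iff_isRoot, IsRoot]
    simp only [eval_sub, eval_add, eval_mul, eval_pow, eval_C, eval_X]
    rw [hs2, hk']
    ring
  · rw [dvd_iff_isRoot, IsRoot]
    simp only [eval_sub, eval_add, eval_mul, eval_pow, eval_C, eval_X]
    rw [hs3, hl']
    ring

/-- a double zero -/
theorem sq_two (hp2 : p ≠ 2) {c d : ZMod p} (hcd : c ≠ d) (u : (ZMod p)[X]) (hc : IsSquare (u.eval c))
    (hc0 : u.eval c ≠ 0) (hd : IsSquare (u.eval d)) :
    ∃ g : (ZMod p)[X], (X - C c) ^ 2 * (X - C d) ∣ u - g ^ 2 := by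
  obtain ⟨s, hs⟩ := hc
  obtain ⟨t, ht⟩ := hd
  have hs0 : s ≠ 0 := by
    rintro rfl
    exact hc0 (by rw [hs]; ring)
  have h20 : (2 : ZMod p) ≠ 0 := Ring.two_ne_zero (by rwa [ZMod.ringChar_zmod_n])
  have ddc : d - c ≠ 0 := sub_ne_zero.2 hcd.symm
  obtain ⟨u1, hu1⟩ : (X - C c) ∣ u - C (u.eval c) := by
    rw [dvd_iff_isRoot, IsRoot]
    simp
  obtain ⟨u2, hu2⟩ : (X - C c) ∣ u1 - C (u1.eval c) := by
    rw [dvd_iff_isRoot, IsRoot]
    simp
  set k := u1.eval c / (2 * s) with hk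
  have hk' : 2 * s * k = u1.eval c := by rw [hk]; field_simp
  set l := (t - s - k * (d - c)) / (d - c) ^ 2 with hl
  have hl' : l * (d - c) ^ 2 = t - s - k * (d - c) := by rw [hl]; field_simp
  refine ⟨C s + C k * (X - C c) + C l * (X - C c) ^ 2, ?_⟩
  have hcd' : IsCoprime (X - C c) (X - C d) := isCoprime_X_sub_C_of_isUnit_sub (sub_ne_zero.2 hcd).isUnit
  refine IsCoprime.mul_dvd (IsCoprime.pow_left hcd') ?_ ?_
  · refine ⟨u2 - (C k ^ 2 + 2 * C s * C l) - 2 * C k * C l * (X - C c) - C l ^ 2 * (X - C c) ^ 2, ?_⟩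
    have e1 : u = C (u.eval c) + (X - C c) * (C (u1.eval c) + (X - C c) * u2) := by
      rw [← hu2]
      linear_combination hu1
    rw [e1, hs, ← hk']
    simp only [map_mul]
    have : (C (2:ZMod p)) = (2 : (ZMod p)[X]) := rfl
    rw [this]
    ring
  · rw [dvd_iff_isRoot, IsRoot]
    simp only [eval_sub, eval_add, eval_mul, eval_pow, eval_C, eval_X]
    rw [ht, hl']
    ring

/-- one zero and an irreducible quadratic factor -/
theorem sq_linq {e : ZMod p} {q : (ZMod p)[X]} (hq0 : q.eval e ≠ 0) (u : (ZMod p)[X])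
    (he : IsSquare (u.eval e)) (hq : IsSquare (AdjoinRoot.mk q u)) :
    ∃ g : (ZMod p)[X], (X - C e) * q ∣ u - g ^ 2 := by
  obtain ⟨s, hs⟩ := he
  obtain ⟨g1, hg1⟩ := dvd_of_isSquare hq
  set m := (s - g1.eval e) / q.eval e with hm
  have hm' : q.eval e * m = s - g1.eval e := by rw [hm]; field_simp
  refine ⟨g1 + q * C m, ?_⟩
  have hcop : IsCoprime (X - C e) q := by
    have hprime : Irreducible (X - C e) := irreducible_X_sub_C e
    refine (hprime.coprime_iff_not_dvd).2 ?_
    rw [dvd_iff_isRoot, IsRoot]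
    exact hq0
  refine IsCoprime.mul_dvd hcop ?_ ?_
  · rw [dvd_iff_isRoot, IsRoot]
    simp only [eval_sub, eval_add, eval_mul, eval_pow, eval_C]
    rw [hs, hm']
    ring
  · have : u - (g1 + q * C m) ^ 2 = (u - g1 ^ 2) - q * (2 * g1 * C m + q * C m ^ 2) := by ring
    rw [this]
    exact dvd_sub hg1 (dvd_mul_right _ _)

theorem chi_mul_sq {x y : ZMod p} (hx : (quadraticChar (ZMod p)) x = (quadraticChar (ZMod p)) y) (hy : y ≠ 0) : IsSquare (x * y) ∧ x ≠ 0 := by
  have hx0 : x ≠ 0 := by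
    rintro rfl
    rw [MulChar.map_zero] at hx
    exact hy (quadraticChar_eq_zero_iff.1 hx.symm)
  refine ⟨?_, hx0⟩
  rw [← quadraticChar_one_iff_isSquare (mul_ne_zero hx0 hy), map_mul, hx, ← sq]
  exact quadraticChar_sq_one hy

theorem eval_ne_zero {f h : (ZMod p)[X]} (hcop : IsCoprime h f) {e : ZMod p} (he : f.eval e = 0) :
    h.eval e ≠ 0 := by
  obtain ⟨u, v, huv⟩ := hcop
  intro h0
  have := congrArg (Polynomial.eval e) huv
  simp [h0, he] at this

theorem abs_chi {x : ZMod p} (hx : x ≠ 0) : |(quadraticChar (ZMod p)) x| = 1 := by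
  rcases quadraticChar_dichotomy hx with h | h <;> rw [h] <;> norm_num

theorem fpt_aux (hp2 : p ≠ 2) (a b : ZMod p) (hab : ¬ (a = 0 ∧ b = 0))
    (hbig : 1000 ≤ p ∨ Irreducible (X ^ 3 + C a * X + C b : (ZMod p)[X])) (h : (ZMod p)[X])
    (hcop : IsCoprime h (X ^ 3 + C a * X + C b))
    (hsq : IsSquare (Algebra.norm (ZMod p) (AdjoinRoot.mk (X ^ 3 + C a * X + C b : (ZMod p)[X]) h))) :
    (∃ g : (ZMod p)[X], X ^ 3 + C a * X + C b ∣ h - g ^ 2) ∨
    ∃ x y : ZMod p, y ≠ 0 ∧ y ^ 2 = x ^ 3 + a * x + b ∧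
      ∃ g : (ZMod p)[X], X ^ 3 + C a * X + C b ∣ (C x - X) * h - g ^ 2 := by
  by_cases hirr : Irreducible (X ^ 3 + C a * X + C b : (ZMod p)[X])
  · left
    exact dvd_of_isSquare (isSquare_of_norm hp2 hirr (cub_monic a b) _ hsq)
  right
  have hp : 1000 ≤ p := hbig.resolve_right hirr
  have hF : ringChar (ZMod p) ≠ 2 := by rwa [ZMod.ringChar_zmod_n]
  have hcub : (X ^ 3 + C a * X + C b : (ZMod p)[X]) = cub a b := rfl
  rw [hcub] at hirr hcop hsq
  obtain ⟨e, he⟩ : ∃ e, (cub a b).eval e = 0 := by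
    rw [(cub_monic a b).irreducible_iff_roots_eq_zero_of_degree_le_three (by rw [cub_natDegree]; norm_num)
      (by rw [cub_natDegree])] at hirr
    obtain ⟨e, he⟩ := Multiset.exists_mem_of_ne_zero hirr
    exact ⟨e, (mem_roots'.1 he).2⟩
  have he' : e ^ 3 + a * e + b = 0 := by simpa [cub] using he
  have hb : b = -(e ^ 3 + a * e) := by linear_combination he'
  -- a nonzero value which is a square
  have hy : ∀ x : ZMod p, IsSquare ((cub a b).eval x) → (cub a b).eval x ≠ 0 →
      ∃ y : ZMod p, y ≠ 0 ∧ y ^ 2 = x ^ 3 + a * x + b := by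
    intro x hx hx0
    obtain ⟨y, hy⟩ := hx
    refine ⟨y, ?_, ?_⟩
    · rintro rfl
      exact hx0 (by rw [hy]; ring)
    · rw [sq, ← hy]
      simp [cub]
  by_cases hq : Irreducible (qua e (e ^ 2 + a))
  · -- a linear and an irreducible quadratic factor
    haveI : Fact (Irreducible (qua e (e ^ 2 + a))) := ⟨hq⟩
    have hqm := qua_monic e (e ^ 2 + a)
    have hq2 := qua_natDegree e (e ^ 2 + a)
    have hfac : cub a b = (X - C e) * qua e (e ^ 2 + a) := by
      rw [hb]
      simp only [cub, qua, map_add, map_mul, map_pow, map_neg]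
      ring
    have hf : ∀ x : ZMod p, (cub a b).eval x = (x - e) * (qua e (e ^ 2 + a)).eval x := by
      intro x
      rw [hfac]
      simp
    have hq0 : ∀ x, (qua e (e ^ 2 + a)).eval x ≠ 0 := by
      intro x hx
      have hr := (hqm.irreducible_iff_roots_eq_zero_of_degree_le_three (by rw [hq2]) (by rw [hq2]; norm_num)).1 hq
      have : x ∈ (qua e (e ^ 2 + a)).roots := mem_roots'.2 ⟨hqm.ne_zero, hx⟩
      rw [hr] at this
      simp at this
    have hhe : h.eval e ≠ 0 := eval_ne_zero hcop he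
    obtain ⟨x, hx1, hx2⟩ := exists_linq hp hq2 (qua_ns hq) hq0 hf (abs_chi hhe)
    rw [norm_lin hb] at hsq
    have hNx : Algebra.norm (ZMod p) (AdjoinRoot.mk (qua e (e ^ 2 + a)) (C x - X)) =
        (qua e (e ^ 2 + a)).eval x := by
      have h1 : (C x - X : (ZMod p)[X]) = C (-1) * X + C x := by simp; ring
      rw [h1, norm_qua]
      simp only [qua, eval_add, eval_mul, eval_pow, eval_C, eval_X]
      ring
    obtain ⟨hsx, hx0⟩ := chi_mul_sq hx1 hhe
    obtain ⟨hsq', hqx0⟩ := chi_mul_sq hx2 hhe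
    have hu1 : IsSquare (((C x - X) * h : (ZMod p)[X]).eval e) := by
      simpa using hsx
    have hu2 : IsSquare (AdjoinRoot.mk (qua e (e ^ 2 + a)) ((C x - X) * h)) := by
      apply isSquare_of_norm hp2 hq hqm
      rw [map_mul, map_mul, hNx]
      set N := Algebra.norm (ZMod p) (AdjoinRoot.mk (qua e (e ^ 2 + a)) h) with hN
      set Q := (qua e (e ^ 2 + a)).eval x with hQ
      have h1 : IsSquare ((Q * h.eval e) * (h.eval e * N)) := hsq'.mul hsq
      have h2 : Q * N = (Q * h.eval e) * (h.eval e * N) * ((h.eval e)⁻¹ * (h.eval e)⁻¹) := by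
        field_simp
      rw [h2]
      exact h1.mul ⟨_, rfl⟩
    obtain ⟨g, hg⟩ := sq_linq (hq0 e) _ hu1 hu2
    rw [← hfac] at hg
    obtain ⟨y, hy0, hy1⟩ := hy x (by
      rw [hf]
      have h3 : (x - e) * (qua e (e ^ 2 + a)).eval x =
          ((x - e) * h.eval e) * ((qua e (e ^ 2 + a)).eval x * h.eval e) *
            ((h.eval e)⁻¹ * (h.eval e)⁻¹) := by
        field_simp
      rw [h3]
      exact (hsx.mul hsq').mul ⟨_, rfl⟩) (by
      rw [hf]
      exact mul_ne_zero hx0 hqx0)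
    exact ⟨x, y, hy0, hy1, g, hg⟩
  · -- three linear factors
    obtain ⟨e2, he2⟩ : ∃ e2, (qua e (e ^ 2 + a)).eval e2 = 0 := by
      rw [(qua_monic e (e ^ 2 + a)).irreducible_iff_roots_eq_zero_of_degree_le_three
        (by rw [qua_natDegree]) (by rw [qua_natDegree]; norm_num)] at hq
      obtain ⟨e2, he2⟩ := Multiset.exists_mem_of_ne_zero hq
      exact ⟨e2, (mem_roots'.1 he2).2⟩
    have he2' : e2 ^ 2 + e * e2 + (e ^ 2 + a) = 0 := by simpa [qua] using he2
    obtain ⟨e3, he3⟩ : ∃ e3 : ZMod p, e3 = -e - e2 := ⟨_, rfl⟩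
    -- the general statement
    have main : ∀ f1 f2 f3 : ZMod p, f1 + f2 + f3 = 0 → a = f1 * f2 + f1 * f3 + f2 * f3 →
        b = -(f1 * f2 * f3) → (f1 ≠ f2 ∧ f1 ≠ f3 ∧ f2 ≠ f3) ∨ (f1 = f2 ∧ f1 ≠ f3) →
        ∃ x y : ZMod p, y ≠ 0 ∧ y ^ 2 = x ^ 3 + a * x + b ∧
        ∃ g : (ZMod p)[X], cub a b ∣ (C x - X) * h - g ^ 2 := by
      intro f1 f2 f3 s0 s1 s2 hcase
      have f3' : f3 = -f1 - f2 := by linear_combination s0
      have hfac : cub a b = (X - C f1) * (X - C f2) * (X - C f3) := by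
        rw [s1, s2, f3']
        simp only [cub, map_add, map_mul, map_neg, map_sub]
        ring
      have hf : ∀ x : ZMod p, (cub a b).eval x = (x - f1) * (x - f2) * (x - f3) := by
        intro x
        rw [hfac]
        simp
      have hh1 : h.eval f1 ≠ 0 := eval_ne_zero hcop (by rw [hf]; ring)
      have hh2 : h.eval f2 ≠ 0 := eval_ne_zero hcop (by rw [hf]; ring)
      have hh3 : h.eval f3 ≠ 0 := eval_ne_zero hcop (by rw [hf]; ring)
      have hN := hsq
      rw [norm_split s0 s1 s2] at hN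
      have hprod : (quadraticChar (ZMod p)) (h.eval f1) * (quadraticChar (ZMod p)) (h.eval f2) * (quadraticChar (ZMod p)) (h.eval f3) = 1 := by
        rw [← map_mul, ← map_mul,
          quadraticChar_one_iff_isSquare (mul_ne_zero (mul_ne_zero hh1 hh2) hh3)]
        exact hN
      rcases hcase with ⟨h12, h13, h23⟩ | ⟨h12, h13⟩
      · obtain ⟨x, hx1, hx2, hx3⟩ := exists_three hp h12 h13 h23 hf (abs_chi hh1) (abs_chi hh2)
          (abs_chi hh3) hprod
        obtain ⟨q1, r1⟩ := chi_mul_sq hx1 hh1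
        obtain ⟨q2, r2⟩ := chi_mul_sq hx2 hh2
        obtain ⟨q3, r3⟩ := chi_mul_sq hx3 hh3
        obtain ⟨g, hg⟩ := sq_three h12 h13 h23 ((C x - X) * h) (by simpa using q1) (by simpa using q2)
          (by simpa using q3)
        rw [← hfac] at hg
        obtain ⟨y, hy0, hy1⟩ := hy x (by
          rw [hf, ← quadraticChar_one_iff_isSquare (mul_ne_zero (mul_ne_zero r1 r2) r3), map_mul, map_mul,
            hx1, hx2, hx3]
          exact hprod) (by
          rw [hf]
          exact mul_ne_zero (mul_ne_zero r1 r2) r3)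
        exact ⟨x, y, hy0, hy1, g, hg⟩
      · subst h12
        obtain ⟨x, hx1, hx3⟩ := exists_two hp h13 (abs_chi hh1)
        have hss : (quadraticChar (ZMod p)) (h.eval f1) * (quadraticChar (ZMod p)) (h.eval f1) = 1 := by
          rw [← sq]
          exact quadraticChar_sq_one hh1
        have hx3' : (quadraticChar (ZMod p)) (x - f3) = (quadraticChar (ZMod p)) (h.eval f3) := by
          rw [hx3]
          linear_combination -hprod + (quadraticChar (ZMod p)) (h.eval f3) * hss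
        obtain ⟨q1, r1⟩ := chi_mul_sq hx1 hh1
        obtain ⟨q3, r3⟩ := chi_mul_sq hx3' hh3
        obtain ⟨g, hg⟩ := sq_two hp2 h13 ((C x - X) * h) (by simpa using q1)
          (by simpa using ⟨r1, hh1⟩) (by simpa using q3)
        have hfac' : (X - C f1) ^ 2 * (X - C f3) = cub a b := by
          rw [hfac, sq]
        rw [hfac'] at hg
        obtain ⟨y, hy0, hy1⟩ := hy x (by
          rw [hf, ← quadraticChar_one_iff_isSquare (mul_ne_zero (mul_ne_zero r1 r1) r3), map_mul, map_mul,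
            hx1, hx3, mul_one]
          exact hss) (by
          rw [hf]
          exact mul_ne_zero (mul_ne_zero r1 r1) r3)
        exact ⟨x, y, hy0, hy1, g, hg⟩
    have t0 : e + e2 + e3 = 0 := by rw [he3]; ring
    have t1 : a = e * e2 + e * e3 + e2 * e3 := by
      rw [he3]
      linear_combination he2'
    have t2 : b = -(e * e2 * e3) := by
      rw [he3, hb]
      linear_combination -e * he2'
    by_cases h12 : e = e2
    · by_cases h13 : e = e3
      · exfalso
        have h3e : 3 * e = 0 := by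
          linear_combination t0 + h12 + h13
        have h30 : (3 : ZMod p) ≠ 0 := by
          intro h3
          have : ((3 : ℕ) : ZMod p) = 0 := by exact_mod_cast h3
          rw [ZMod.natCast_eq_zero_iff] at this
          have := Nat.le_of_dvd (by norm_num) this
          omega
        have he0 : e = 0 := by
          rcases mul_eq_zero.1 h3e with h | h
          · exact absurd h h30
          · exact h
        apply hab
        rw [t1, t2, ← h12, ← h13, he0]
        constructor <;> ring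
      · exact main e e2 e3 t0 t1 t2 (Or.inr ⟨h12, h13⟩)
    · by_cases h13 : e = e3
      · exact main e e3 e2 (by linear_combination t0) (by linear_combination t1)
          (by linear_combination t2) (Or.inr ⟨h13, h12⟩)
      · by_cases h23 : e2 = e3
        · exact main e2 e3 e (by linear_combination t0) (by linear_combination t1)
            (by linear_combination t2) (Or.inr ⟨h23, fun h' => h12 h'.symm⟩)
        · exact main e e2 e3 t0 t1 t2 (Or.inl ⟨h12, h13, h23⟩)

theorem fpt : Pool.Agent.H458.AR.S_FPT := by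
  intro p _ hp2 a b hab hbig h hcop hsq
  exact fpt_aux hp2 a b hab hbig h hcop hsq

end Pool.Agent.H458.AR.F294
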