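import Pool.Agent.H458.AR.Main
import Pool.Agent.H161.AR458.SRG
import Pool.Agent.H196.AR458.UNT
import Pool.Agent.H230.AR458.ABD
import Pool.Agent.H230.AR458.IX2
import Pool.Agent.H249.AR458.L2
import Pool.Agent.H263.AR458.BXR
import Pool.Agent.H264.AR458.COH
import Pool.Agent.H278.AR458.CC
import Pool.Agent.H294.AR458.CMB
import Pool.Agent.H458.AR.FPT
import Pool.Agent.H30.AR458.SEL
import Pool.Agent.H307.AR458.GR
import Pool.Agent.H335.AR458.SUN
import Pool.Agent.H337.AR458.SEP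
import Pool.Agent.H349.AR458.STP
import Pool.Agent.H350.AR458.RJP
import Pool.Agent.H37.AR458.PLC
import Pool.Agent.H376.AR458.NUM
import Pool.Agent.H404.AR458.EVP
import Pool.Agent.H407.AR458.VDM
import Pool.Agent.H415.AR458.CA
import Pool.Agent.H415.AR458.LBR
import Pool.Agent.H548.AR458.SHT
import Pool.Agent.H553.AR458.GDP
import Pool.Agent.H588.AR458.LQ
import Pool.Agent.H596.AR458.CPL
import Pool.Agent.H596.AR458.NQ
import Pool.Agent.H597.AR458.TVR
import Pool.Agent.H618.AR458.RLP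
import Pool.Agent.H722.AR458.HNS
import Pool.Agent.H784.AR458.CHR
import Pool.Agent.H803.AR458.RQ
import Pool.Agent.H919.AR458.SRE
import Pool.Agent.H921.AR458.RMS
import Pool.Agent.H922.AR458.LOW
import Pool.Agent.H969.AR458.CD
import Pool.Agent.H975.AR458.CB
import Pool.Agent.H975.AR458.NSG
import Pool.Agent.H996.AR458.PRM

/-!
# Project AR (helper458): all the parts together
-/

set_option autoImplicit false

namespace Pool.Agent.H458.AR

theorem partsAR : PartsAR where
  lbr := Pool.Agent.H415.AR458.lbr Pool.Agent.H919.AR458.sre Pool.Agent.H161.AR458.srg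
    Pool.Agent.H784.AR458.chr Pool.Agent.H597.AR458.tvr
  vdm := Pool.Agent.H407.AR458.vdm Pool.Agent.H335.AR458.sun Pool.Agent.H37.AR458.plc nsg
    Pool.Agent.H230.AR458.ix2
  cmb := Pool.Agent.H294.AR458.cmb (Pool.Agent.H307.AR458.gr Pool.Agent.H921.AR458.rms
    Pool.Agent.H337.AR458.sep Pool.Agent.H548.AR458.sht) Pool.Agent.H349.AR458.stp
  low := Pool.Agent.H922.AR458.low1 (Pool.Agent.H230.AR458.abd
    (Pool.Agent.H263.AR458.bxr Pool.Agent.H588.AR458.lq))
  prm := Pool.Agent.H996.AR458.prm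
  num := Pool.Agent.H376.AR458.num
  sel := Pool.Agent.H30.AR458.sel Pool.Agent.H596.AR458.nq Pool.Agent.H249.AR458.l2
    Pool.Agent.H404.AR458.evp Pool.Agent.H803.AR458.rq
    (Pool.Agent.H553.AR458.gdp Pool.Agent.H722.AR458.hns Pool.Agent.H458.AR.F294.fpt
      Pool.Agent.H196.AR458.unt) Pool.Agent.H350.AR458.rjp Pool.Agent.H618.AR458.rlp
  coh := Pool.Agent.H264.AR458.coh Pool.Agent.H596.AR458.nq Pool.Agent.H596.AR458.cpl
    Pool.Agent.H415.AR458.ca cb Pool.Agent.H278.AR458.cc Pool.Agent.H969.AR458.cd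

end Pool.Agent.H458.AR
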