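import Pool.Agent.H458.AR.Cnt

/-!
# Project AR (helper458): the main theorem from the parts
-/

set_option autoImplicit false
set_option linter.all false
set_option maxHeartbeats 400000

open Polynomial IsDedekindDomain NumberField
open scoped Classical

namespace Pool.Agent.H458.AR

open Pool.Agent.N922.PQ
open Pool.Agent.N874.PP (sW)
open Pool.Agent.H922.AR458 (S_LOW1)

/-- The parts of project AR. -/
structure PartsAR : Prop where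
  lbr : S_LBR
  vdm : S_VDM
  cmb : S_CMB
  low : S_LOW1
  prm : S_PRM
  num : S_NUM
  sel : S_SEL
  coh : S_COH

/-- The 2-Selmer group of the twist by `D`. -/
noncomputable def selTw (p : ℤ × ℤ) (D : ℤ) : ℕ :=
  Nat.card (Sel2 (sW ((p.1 * D ^ 2 : ℤ) : ℚ) ((p.2 * D ^ 3 : ℤ) : ℚ)))

/-- Primes below 1000. -/
theorem exists_T : ∃ (T : Finset ℤ) (A B : ℤ → ℤ), GoodT T A B ∧
    ∀ p : ℕ, p.Prime → p < 1000 → (p : ℤ) ∈ T := by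
  obtain ⟨T, A, B, h1, h2⟩ := Pool.Agent.N954.PQ.tch
    (((Finset.range 1000).filter Nat.Prime).image fun p : ℕ => (p : ℤ)) (by
      intro P hP
      rw [Finset.mem_image] at hP
      obtain ⟨p, hp, rfl⟩ := hP
      rw [Finset.mem_filter] at hp
      exact ⟨by exact_mod_cast hp.2.pos, Nat.prime_iff_prime_int.1 hp.2⟩)
  refine ⟨T, A, B, h2, fun p hp hlt => h1 ?_⟩
  rw [Finset.mem_image]
  exact ⟨p, Finset.mem_filter.2 ⟨Finset.mem_range.2 hlt, hp⟩, rfl⟩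

theorem irr_ff {a b : ℤ} (hnt2 : ∀ z : ℤ, ¬ (2 : ℤ) ∣ z ^ 3 + a * z + b) :
    Irreducible (ff ℚ a b) := by
  have hone : ∀ (F : Type) [Field F], (X ^ 3 + C ((((a * 1 ^ 2 : ℤ)) : F)) * X +
      C ((((b * 1 ^ 3 : ℤ)) : F)) : F[X]) = ff F a b := by
    intro F _
    rw [one_pow, one_pow, mul_one, mul_one]
    rfl
  rw [← hone]
  exact irr_tw (algebraMap ℚ ℚ_[2]) hnt2 one_ne_zero

/-- All ranks occur among the twists of a curve of the family. -/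
theorem fam_ranks (H : PartsAR) {κ : ℕ} (hLB : ∀ (L : Type) [Field L] [NumberField L] (a b : ℤ)
      (θ : L) (X : ℕ) (S T : Finset ℤ) (s A B : ℤ → ℤ), IsCub a b θ → GoodS S s →
      Fam X S s T A B a b →
      ∀ (α : L) (e : Fin 3 → L), α ≠ 0 → IsSquare (Algebra.norm ℚ α) → ¬ IsSquare α → SD e α →
      (∀ Q ∈ S, TTV Q θ e α) → LBad κ X S s a b) {r k X : ℕ} {S T : Finset ℤ} {s A B : ℤ → ℤ}
    (hCMB : ∀ Λ : AddSubgroup (S → ZMod 2 × ZMod 2), (∀ l ∈ Λ, ∑ i, (l i).1 * (l i).2 = 0) →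
      2 ^ Fintype.card S ≤ Nat.card Λ → (∀ l ∈ Λ, (∃ i, (l i).1 = 1 ∧ (l i).2 = 1) →
        k < (Finset.univ.filter fun i => l i ≠ 0).card) →
      ∀ j ≤ r, ∃ J : Set S, Nat.card (LJ Λ J) = 2 ^ j)
    (hS : GoodS S s) (hT : GoodT T A B)
    (hT0 : ∀ p : ℕ, p.Prime → p < 1000 → (p : ℤ) ∈ T) (hdis : Disjoint S T) {p : ℤ × ℤ}
    (hF : Fam X S s T A B p.1 p.2) (h4 : (4 : ℤ) ∣ p.1 - p.2) (hnb : ¬ LBad κ X S s p.1 p.2)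
    (hlow : ¬ LowB X S s k p) :
    ∀ j ≤ r, ∃ J ⊆ S, selTw p (∏ Q ∈ J, Q) = 2 ^ j := by
  obtain ⟨a, b⟩ := p
  simp only at hF h4 hnb
  have hnt2 : ∀ z : ℤ, ¬ (2 : ℤ) ∣ z ^ 3 + a * z + b := fam_nt hT hF hT.1
  have hirr : Irreducible (ff ℚ a b) := irr_ff hnt2
  obtain ⟨L, iF, iN, θ, hc, -⟩ := exists_cub hirr
  intro j hj
  obtain ⟨J, hJ, g, hg1, hg2, hg3⟩ := core (𝓞 L) parts.cls parts.exq parts.ns parts.recp parts.plm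
    (Pool.Agent.N966.PQ.ram Pool.Agent.N849.PQ.int parts.exq) parts.sd parts.ttv hLB H.lbr H.vdm
    hCMB hc hS hT hF h4 hnb hlow j hj
  refine ⟨J, hJ, ?_⟩
  have hD0 : (∏ Q ∈ J, Q) ≠ 0 := by
    rw [Finset.prod_ne_zero_iff]
    exact fun Q hQ => (hS Q (hJ hQ)).1.2.ne_zero
  have hsel := fun α => H.sel L (𝓞 L) a b θ X S T s A B hc hS hT hT0 hdis hF J hJ α
  have hdisc : 4 * (a * (∏ Q ∈ J, Q) ^ 2) ^ 3 + 27 * (b * (∏ Q ∈ J, Q) ^ 3) ^ 2 ≠ 0 := by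
    have h1 : dsc a b ≠ 0 := hF.sq.ne_zero
    have e1 : 4 * (a * (∏ Q ∈ J, Q) ^ 2) ^ 3 + 27 * (b * (∏ Q ∈ J, Q) ^ 3) ^ 2 =
        dsc a b * (∏ Q ∈ J, Q) ^ 6 := by
      unfold dsc
      ring
    rw [e1]
    exact mul_ne_zero h1 (pow_ne_zero _ hD0)
  exact H.coh L _ _ _ (Pool.Agent.H30.AR458.isCub_twist hc hD0) hdisc (2 ^ j) g
    (fun i => (hsel _).2 (hg1 i)) hg2 fun α hα => hg3 α ((hsel α).1 hα)

/-- The family. -/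
theorem exists_fam (H : PartsAR) (r : ℕ) : ∃ (S T : Finset ℤ) (s A B : ℤ → ℤ) (G : ℕ → Set (ℤ × ℤ))
    (c : ℝ) (X₀ : ℕ), GoodS S s ∧ GoodT T A B ∧ 0 < c ∧
    (∀ X, ∀ p ∈ G X, Fam X S s T A B p.1 p.2) ∧
    (∀ X, ∀ p ∈ G X, ∀ j ≤ r, ∃ J ⊆ S, selTw p (∏ Q ∈ J, Q) = 2 ^ j) ∧
    ∀ X ≥ X₀, c * (X : ℝ) ^ 5 ≤ ((G X).ncard : ℝ) := by
  obtain ⟨κ, hLB⟩ := lb
  obtain ⟨T, A, B, hT, hT0⟩ := exists_T
  obtain ⟨e, he, m₀, hcmb⟩ := H.cmb r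
  obtain ⟨m, hm, S, s, c, hS, hcard, hdis, hc, X₀, hX₀⟩ :=
    good_card3 Pool.Agent.N615.PV.fam2 bad H.low H.prm H.num κ hT e m₀ he
  refine ⟨S, T, s, A, B, fun X => {p : ℤ × ℤ | ((Fam X S s T A B p.1 p.2 ∧ (4 : ℤ) ∣ p.1 - p.2) ∧
        ¬ LBad κ X S s p.1 p.2) ∧ ¬ LowB X S s (m ^ (e - 1)) p}, c, X₀, hS, hT, hc, ?_, ?_, hX₀⟩
  · rintro X p ⟨⟨⟨h1, _⟩, _⟩, _⟩
    exact h1
  · rintro X p ⟨⟨⟨h1, h2⟩, h3⟩, h4⟩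
    refine fam_ranks H hLB ?_ hS hT hT0 hdis h1 h2 h3 h4
    intro Λ h5 h6 h7
    exact hcmb m hm S Λ (by rw [Fintype.card_coe, hcard]) h5 h6 h7

/-- Curves of small height. -/
theorem bound {S : Finset ℤ} {s : ℤ → ℤ} (hS : GoodS S s) {X Hh : ℕ}
    (hHh : 27 * (X * (∏ Q ∈ S, Q).toNat) ^ 6 ≤ Hh) :
    27 * ((X : ℤ) * ∏ Q ∈ S, Q) ^ 6 ≤ Hh := by
  have hSpos : 0 < ∏ Q ∈ S, Q := Finset.prod_pos fun Q hQ => (hS Q hQ).1.1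
  have h1 : ((27 * (X * (∏ Q ∈ S, Q).toNat) ^ 6 : ℕ) : ℤ) ≤ Hh := by exact_mod_cast hHh
  have e1 : (((∏ Q ∈ S, Q).toNat : ℕ) : ℤ) = ∏ Q ∈ S, Q := Int.toNat_of_nonneg hSpos.le
  rw [Nat.cast_mul, Nat.cast_pow, Nat.cast_mul, e1] at h1
  exact_mod_cast h1

/-- All 2-Selmer ranks occur for a positive proportion of all elliptic curves. -/
theorem main (H : PartsAR) (r : ℕ) : ∃ c : ℝ, 0 < c ∧ ∃ X₀ : ℕ, ∀ X ≥ X₀,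
    {p : ℤ × ℤ | Cv X p.1 p.2}.Finite ∧ c * ({p : ℤ × ℤ | Cv X p.1 p.2}.ncard : ℝ) ≤
      ({p : ℤ × ℤ | Cv X p.1 p.2 ∧
        (∀ q : ℕ, q.Prime → ¬ ((q : ℤ) ^ 4 ∣ p.1 ∧ (q : ℤ) ^ 6 ∣ p.2)) ∧
        Nat.card (Sel2 (sW (p.1 : ℚ) (p.2 : ℚ))) = 2 ^ r}.ncard : ℝ) := by
  obtain ⟨S, T, s, A, B, G, c, X₀, hS, hT, hc, hG1, hG2, hG3⟩ := exists_fam H r
  have hSpos : 0 < ∏ Q ∈ S, Q := Finset.prod_pos fun Q hQ => (hS Q hQ).1.1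
  refine cnt_all (fun p => Nat.card (Sel2 (sW (p.1 : ℚ) (p.2 : ℚ))) = 2 ^ r)
    (∏ Q ∈ S, Q).toNat X₀ (c / 2 ^ S.card) (by positivity) (by omega) fun X hX Hh hHh => ?_
  have hN := hG3 X hX
  set Hs := {p : ℤ × ℤ | Crv Hh p.1 p.2 ∧ Nat.card (Sel2 (sW (p.1 : ℚ) (p.2 : ℚ))) = 2 ^ r} with hH
  have hHf : Hs.Finite := (crv_fin Hh).subset fun p hp => hp.1
  have hbd := bound hS hHh
  have hcard := card_fib hHf S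
    (fun (J : Finset ℤ) (p : ℤ × ℤ) => (p.1 * (∏ Q ∈ J, Q) ^ 2, p.2 * (∏ Q ∈ J, Q) ^ 3))
    (G := G X) (by
      intro p hp
      obtain ⟨J, hJ, hsel⟩ := hG2 X p hp r le_rfl
      exact ⟨J, hJ, Pool.Agent.N707.PQ.crv X Hh S T s A B p.1 p.2 hS hT (hG1 X p hp) J hJ hbd,
        hsel⟩) (by
      intro J hJ x hx y hy hxy
      have hD0 : (∏ Q ∈ J, Q) ≠ 0 := by
        rw [Finset.prod_ne_zero_iff]
        exact fun Q hQ => (hS Q (hJ hQ)).1.2.ne_zero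
      rw [Prod.mk.injEq] at hxy
      exact twist_inj hD0 hxy.1 hxy.2)
  have hcard' : ((G X).ncard : ℝ) ≤ 2 ^ S.card * Hs.ncard := by exact_mod_cast hcard
  calc c / 2 ^ S.card * (X : ℝ) ^ 5
      = c * (X : ℝ) ^ 5 / 2 ^ S.card := by ring
    _ ≤ ((G X).ncard : ℝ) / 2 ^ S.card := by gcongr
    _ ≤ (2 ^ S.card * Hs.ncard) / 2 ^ S.card := by gcongr
    _ = Hs.ncard := by field_simp

theorem exists_twists {S : Finset ℤ} {s : ℤ → ℤ} (hS : GoodS S s) :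
    ∃ D : Finset ℕ, (∀ d ∈ D, Squarefree d) ∧ ∀ J ⊆ S, ∃ d ∈ D, (d : ℤ) = ∏ Q ∈ J, Q := by
  have hnn : ∀ J ⊆ S, (((∏ Q ∈ J, Q).toNat : ℕ) : ℤ) = ∏ Q ∈ J, Q := fun J hJ =>
    Int.toNat_of_nonneg (Finset.prod_pos fun Q hQ => (hS Q (hJ hQ)).1.1).le
  refine ⟨S.powerset.image fun J => (∏ Q ∈ J, Q).toNat, ?_, ?_⟩
  · intro d hd
    rw [Finset.mem_image] at hd
    obtain ⟨J, hJ, rfl⟩ := hd
    rw [Finset.mem_powerset] at hJ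
    rw [← Int.squarefree_natCast, hnn J hJ]
    refine Finset.squarefree_prod_of_pairwise_isCoprime ?_ fun Q hQ => (hS Q (hJ hQ)).1.2.squarefree
    intro P hP Q hQ hne
    exact (isCoprime_of (hS P (hJ hP)).1 (hS Q (hJ hQ)).1 hne).isRelPrime
  · intro J hJ
    exact ⟨_, Finset.mem_image.2 ⟨J, Finset.mem_powerset.2 hJ, rfl⟩, hnn J hJ⟩

/-- A finite set of twists. -/
theorem main_twists (H : PartsAR) (r : ℕ) : ∃ D : Finset ℕ, (∀ d ∈ D, Squarefree d) ∧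
    ∃ c : ℝ, 0 < c ∧ ∃ X₀ : ℕ, ∀ X ≥ X₀,
    {p : ℤ × ℤ | Cv X p.1 p.2}.Finite ∧ c * ({p : ℤ × ℤ | Cv X p.1 p.2}.ncard : ℝ) ≤
      ({p : ℤ × ℤ | Cv X p.1 p.2 ∧
        (∀ q : ℕ, q.Prime → ¬ ((q : ℤ) ^ 4 ∣ p.1 ∧ (q : ℤ) ^ 6 ∣ p.2)) ∧
        ∀ j ≤ r, ∃ d ∈ D, selTw p (d : ℤ) = 2 ^ j}.ncard : ℝ) := by
  obtain ⟨S, T, s, A, B, G, c, X₀, hS, hT, hc, hG1, hG2, hG3⟩ := exists_fam H r
  have hSpos : 0 < ∏ Q ∈ S, Q := Finset.prod_pos fun Q hQ => (hS Q hQ).1.1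
  obtain ⟨D, hD1, hD2⟩ := exists_twists hS
  refine ⟨D, hD1, ?_⟩
  refine cnt_all (fun p => ∀ j ≤ r, ∃ d ∈ D, selTw p (d : ℤ) = 2 ^ j) (∏ Q ∈ S, Q).toNat X₀ c hc
    (by omega) fun X hX Hh hHh => ?_
  refine (hG3 X hX).trans ?_
  have hbd := bound hS hHh
  have hHf : {p : ℤ × ℤ | Crv Hh p.1 p.2 ∧ ∀ j ≤ r, ∃ d ∈ D, selTw p (d : ℤ) = 2 ^ j}.Finite :=
    (crv_fin Hh).subset fun p hp => hp.1
  have hsub : G X ⊆ {p : ℤ × ℤ | Crv Hh p.1 p.2 ∧ ∀ j ≤ r, ∃ d ∈ D, selTw p (d : ℤ) = 2 ^ j} := by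
    intro p hp
    have h1 := Pool.Agent.N707.PQ.crv X Hh S T s A B p.1 p.2 hS hT (hG1 X p hp) ∅
      (Finset.empty_subset _) hbd
    rw [Finset.prod_empty, one_pow, one_pow, mul_one, mul_one] at h1
    refine ⟨h1, fun j hj => ?_⟩
    obtain ⟨J, hJ, hsel⟩ := hG2 X p hp j hj
    obtain ⟨d, hd, he⟩ := hD2 J hJ
    exact ⟨d, hd, by rw [he]; exact hsel⟩
  exact_mod_cast Set.ncard_le_ncard hsub hHf

end Pool.Agent.H458.AR
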